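import Pool.Agent.TH674.Stab.Cls

/-!
# Sums over coordinates, signs and indicators
-/

set_option autoImplicit false
set_option linter.unusedSectionVars false

namespace Pool.Agent.TH674.Stab

open Finset

variable {V W S : Type*} [AddCommGroup V] [Module (ZMod 2) V] [AddCommGroup W] [Module (ZMod 2) W]
  [AddCommGroup S] [Module (ZMod 2) S]

/-- the embedding of the last coordinates -/
def consHom (W : Type*) [AddCommGroup W] (K : ℕ) :
    W × (Fin K → ZMod 2) →+ W × (Fin (K + 1) → ZMod 2) where
  toFun p := (p.1, Fin.cons 0 p.2)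
  map_zero' := by
    ext i
    · rfl
    · refine Fin.cases ?_ (fun j => ?_) i <;> simp
  map_add' p q := by
    ext i
    · rfl
    · refine Fin.cases ?_ (fun j => ?_) i <;> simp

theorem Cls.sum_fin : ∀ (K : ℕ) {F : W × (Fin K → ZMod 2) → ℂ}, Cls F →
    Cls (fun w => ∑ s, F (w, s))
  | 0, F, hF => by
    have h := hF.comp (AddMonoidHom.inl W (Fin 0 → ZMod 2)) 0
    have e : (fun w => ∑ s, F (w, s)) = fun w => F (AddMonoidHom.inl W (Fin 0 → ZMod 2) w + 0) := by
      funext w
      rw [Fintype.sum_unique]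
      congr 1
      ext i
      · simp
      · exact i.elim0
    rw [e]
    exact h
  | K + 1, F, hF => by
    have h := ((hF.shift (0, Fin.cons 1 0)).comp (consHom W K) 0)
    have h2 := Cls.sum_fin K h
    have e : (fun w => ∑ s, F (w, s)) = fun w => ∑ s : Fin K → ZMod 2,
        (F (consHom W K (w, s) + 0) + F (consHom W K (w, s) + 0 + (0, Fin.cons 1 0))) := by
      funext w
      rw [← Equiv.sum_comp (Fin.consEquiv fun _ => ZMod 2), Fintype.sum_prod_type, Finset.sum_comm]
      apply Finset.sum_congr rfl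
      intro s _
      have h3 : ∀ g : ZMod 2 → ℂ, ∑ c, g c = g 0 + g 1 := fun g => Fin.sum_univ_two g
      rw [h3]
      congr 2
      · rw [add_zero]; rfl
      · rw [add_zero]
        ext i
        · simp [consHom, Fin.consEquiv]
        · refine Fin.cases ?_ (fun j => ?_) i
          · simp [consHom, Fin.consEquiv]
          · simp [consHom]
    rw [e]
    exact h2

theorem Cls.sum {κ : Type*} [Fintype κ] [DecidableEq κ] {F : W × (κ → ZMod 2) → ℂ} (hF : Cls F) :
    Cls (fun w => ∑ s, F (w, s)) := by
  let e := Fintype.equivFin κ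
  let l : W × (Fin (Fintype.card κ) → ZMod 2) →+ W × (κ → ZMod 2) :=
    { toFun := fun p => (p.1, fun i => p.2 (e i))
      map_zero' := rfl
      map_add' := fun p q => rfl }
  have h := Cls.sum_fin _ (hF.comp l 0)
  have e1 : (fun w => ∑ s, F (w, s)) = fun w => ∑ s : Fin (Fintype.card κ) → ZMod 2,
      F (l (w, s) + 0) := by
    funext w
    rw [← Equiv.sum_comp (Equiv.arrowCongr e (Equiv.refl (ZMod 2))).symm]
    apply Finset.sum_congr rfl
    intro s _
    rw [add_zero]
    rfl
  rw [e1]
  exact h

lemma Cls.one : Cls (fun _ : V => (1 : ℂ)) :=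
  Or.inr ⟨0, ⊤, fun _ _ => 1, fun x => by simp, fun x a b _ _ _ => by simp⟩

lemma Cls.prod {ι : Type*} (t : Finset ι) {f : ι → V → ℂ} (h : ∀ i ∈ t, Cls (f i)) :
    Cls (fun x => ∏ i ∈ t, f i x) := by
  classical
  induction t using Finset.induction_on with
  | empty => simpa using Cls.one
  | insert i t hi ih =>
    simp only [Finset.prod_insert hi]
    exact (h i (Finset.mem_insert_self _ _)).mul (ih fun j hj => h j (Finset.mem_insert_of_mem hj))

/-- the sign -/
def sg (c : ZMod 2) : ℂ := if c = 0 then 1 else -1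

lemma sg_zero : sg 0 = 1 := rfl

lemma sg_one : sg 1 = -1 := by
  unfold sg; rw [if_neg (by decide)]

lemma zmod2 (c : ZMod 2) : c = 0 ∨ c = 1 := by
  revert c; decide

lemma sg_add (a b : ZMod 2) : sg (a + b) = sg a * sg b := by
  rcases zmod2 a with rfl | rfl <;> rcases zmod2 b with rfl | rfl
  · simp [sg_zero]
  · simp [sg_zero]
  · simp [sg_zero]
  · rw [show (1 : ZMod 2) + 1 = 0 from rfl, sg_zero, sg_one]; norm_num

lemma sg_ne (a : ZMod 2) : sg a ≠ 0 := by
  rcases zmod2 a with rfl | rfl
  · rw [sg_zero]; exact one_ne_zero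
  · rw [sg_one]; norm_num

lemma sg_sum {ι : Type*} (t : Finset ι) (f : ι → ZMod 2) : sg (∑ i ∈ t, f i) = ∏ i ∈ t, sg (f i) := by
  classical
  induction t using Finset.induction_on with
  | empty => simp [sg_zero]
  | insert i t hi ih => rw [Finset.sum_insert hi, Finset.prod_insert hi, sg_add, ih]

lemma Cls.sg_mul (p q : V →+ ZMod 2) : Cls (fun x => sg (p x * q x)) := by
  refine Or.inr ⟨0, ⊤, fun a b => sg (p a * q b + p b * q a), fun x => by simp [sg_ne], ?_⟩
  intro x a b _ _ _
  simp only [map_add, ← sg_add]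
  congr 1
  generalize p x = P
  generalize q x = Q
  generalize p a = A
  generalize q a = A'
  generalize p b = B
  generalize q b = B'
  revert P Q A A' B B'
  decide

lemma Cls.sg_lin (p : V →+ ZMod 2) : Cls (fun x => sg (p x)) := by
  refine Or.inr ⟨0, ⊤, fun a b => 1, fun x => by simp [sg_ne], ?_⟩
  intro x a b _ _ _
  simp only [map_add, ← sg_add, one_mul]
  congr 1
  generalize p x = P
  generalize p a = A
  generalize p b = B
  revert P A B
  decide

lemma Cls.ind (p : V →+ ZMod 2) (c : ZMod 2) : Cls (fun x => if p x = c then (1 : ℂ) else 0) := by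
  by_cases h : ∃ x₀, p x₀ = c
  · obtain ⟨x₀, rfl⟩ := h
    right
    have key : ∀ x, x + x₀ ∈ p.ker ↔ p x = p x₀ := by
      intro x
      rw [AddMonoidHom.mem_ker, map_add]
      generalize p x = P
      generalize p x₀ = Q
      revert P Q
      decide
    refine ⟨x₀, p.ker, fun _ _ => 1, fun x => ?_, fun x a b hx ha hb => ?_⟩
    · rw [key]
      simp
    · rw [key] at hx
      rw [AddMonoidHom.mem_ker] at ha hb
      simp only [map_add, ha, hb, hx, add_zero, if_true, mul_one]
  · left
    funext x
    push Not at h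
    simp [h x]

end Pool.Agent.TH674.Stab
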