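import Pool.Agent.TH674.Stab.Defs
import Pool.Agent.TH674.Stab.Sum

/-!
# Stabilizer states have affine support and quadratic phases
-/

set_option autoImplicit false
set_option linter.unusedSectionVars false

namespace Pool.Agent.TH674.Stab

open Finset Matrix

/-- shape of the elements of `P_1` -/
def Shape1 (M : Matrix (ZMod 2) (ZMod 2) ℂ) : Prop :=
  ∃ (a : ZMod 2) (h : ZMod 2 → ℂ), h 0 ≠ 0 ∧ (h 1 = h 0 ∨ h 1 = -h 0) ∧
    ∀ x y, M x y = if y = x + a then h x else 0

lemma shape1_X : Shape1 pX := by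
  refine ⟨1, fun _ => 1, one_ne_zero, Or.inl rfl, fun x y => ?_⟩
  unfold pX
  rw [Matrix.of_apply]
  rcases zmod2 x with rfl | rfl <;> rcases zmod2 y with rfl | rfl
  · rw [if_pos rfl, if_neg (by decide)]
  · rw [if_neg (by decide), if_pos (by decide)]
  · rw [if_neg (by decide), if_pos (by decide)]
  · rw [if_pos rfl, if_neg (by decide)]

lemma shape1_Y : Shape1 pY := by
  refine ⟨1, fun x => if x = 0 then -Complex.I else Complex.I, ?_, Or.inr ?_, fun x y => ?_⟩
  · simp
  · simp
  unfold pY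
  rw [Matrix.of_apply]
  rcases zmod2 x with rfl | rfl <;> rcases zmod2 y with rfl | rfl
  · rw [if_pos rfl, if_neg (by decide)]
  · rw [if_neg (by decide), if_pos (by decide : (1 : ZMod 2) = 0 + 1)]
  · rw [if_neg (by decide), if_pos (by decide : (0 : ZMod 2) = 1 + 1)]
  · rw [if_pos rfl, if_neg (by decide)]

lemma shape1_Z : Shape1 pZ := by
  refine ⟨0, fun x => if x = 0 then 1 else -1, ?_, Or.inr ?_, fun x y => ?_⟩
  · simp
  · simp
  unfold pZ
  rw [Matrix.of_apply, add_zero]
  by_cases h : x = y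
  · rw [if_pos h, if_pos h.symm]
  · rw [if_neg h, if_neg (fun h' => h h'.symm)]

lemma shape1_one : Shape1 1 := by
  refine ⟨0, fun _ => 1, one_ne_zero, Or.inl rfl, fun x y => ?_⟩
  rw [Matrix.one_apply, add_zero]
  by_cases h : x = y
  · rw [if_pos h, if_pos h.symm]
  · rw [if_neg h, if_neg (fun h' => h h'.symm)]

lemma shape1_mul {M N : Matrix (ZMod 2) (ZMod 2) ℂ} (hM : Shape1 M) (hN : Shape1 N) :
    Shape1 (M * N) := by
  obtain ⟨a, h, h0, h1, hM⟩ := hM
  obtain ⟨b, k, k0, k1, hN⟩ := hN
  have hk : ∀ x, k x ≠ 0 := by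
    intro x
    rcases zmod2 x with rfl | rfl
    · exact k0
    · rcases k1 with e | e <;> rw [e]
      · exact k0
      · exact neg_ne_zero.2 k0
  refine ⟨a + b, fun x => h x * k (x + a), mul_ne_zero h0 (hk _), ?_, fun x y => ?_⟩
  · have hk1 : k (1 + a) = k (0 + a) ∨ k (1 + a) = - k (0 + a) := by
      rcases zmod2 a with rfl | rfl
      · simpa using k1
      · rw [show (1 : ZMod 2) + 1 = 0 from rfl, zero_add]
        rcases k1 with e | e
        · left; exact e.symm
        · right; rw [e, neg_neg]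
    rcases h1 with e | e <;> rcases hk1 with e' | e' <;> beta_reduce <;> rw [e, e']
    · left; rfl
    · right; ring
    · right; ring
    · left; ring
  · rw [Matrix.mul_apply, Finset.sum_eq_single (x + a)]
    · rw [hM, hN, if_pos rfl, add_assoc]
      split_ifs <;> ring
    · intro z _ hz
      rw [hM, if_neg hz, zero_mul]
    · intro h
      exact absurd (Finset.mem_univ _) h

lemma shape1_mem {M : Matrix (ZMod 2) (ZMod 2) ℂ} (h : M ∈ pauliOne) : Shape1 M := by
  unfold pauliOne at h
  induction h using Submonoid.closure_induction with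
  | mem x hx =>
    rcases hx with rfl | rfl | rfl
    · exact shape1_X
    · exact shape1_Y
    · exact shape1_Z
  | one => exact shape1_one
  | mul x y _ _ hx hy => exact shape1_mul hx hy

/-- shape of the elements of the Pauli group -/
def Shape {d : ℕ} (P : Matrix (Fin d → ZMod 2) (Fin d → ZMod 2) ℂ) : Prop :=
  ∃ (a : Fin d → ZMod 2) (h χ : (Fin d → ZMod 2) → ℂ), (∀ x, h x ≠ 0) ∧
    (∀ x b, h (x + b) = h x * χ b) ∧ ∀ x y, P x y = if y = x + a then h x else 0

lemma shape_mem {d : ℕ} {P : Matrix (Fin d → ZMod 2) (Fin d → ZMod 2) ℂ} (hP : P ∈ pauli d) :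
    Shape P := by
  obtain ⟨M, hM, rfl⟩ := hP
  choose a h h0 h1 hMx using fun j => shape1_mem (hM j)
  have hh : ∀ j x, h j x ≠ 0 := by
    intro j x
    rcases zmod2 x with rfl | rfl
    · exact h0 j
    · rcases h1 j with e | e <;> rw [e]
      · exact h0 j
      · exact neg_ne_zero.2 (h0 j)
  refine ⟨a, fun x => ∏ j, h j (x j), fun b => ∏ j, (h j (b j) / h j 0), fun x => ?_, fun x b => ?_,
    fun x y => ?_⟩
  · exact Finset.prod_ne_zero_iff.2 fun j _ => hh j _
  · rw [← Finset.prod_mul_distrib]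
    apply Finset.prod_congr rfl
    intro j _
    rw [Pi.add_apply]
    have hj := h0 j
    rcases zmod2 (x j) with e | e <;> rcases zmod2 (b j) with e' | e' <;> rw [e, e']
    · rw [add_zero]; field_simp
    · rw [zero_add]; field_simp
    · rw [add_zero]; field_simp
    · rw [show (1 : ZMod 2) + 1 = 0 from rfl]
      rcases h1 j with e1 | e1 <;> rw [e1]
      · field_simp
      · field_simp
  · unfold tens
    rw [Matrix.of_apply]
    simp only [hMx]
    by_cases hxy : y = x + a
    · rw [if_pos hxy]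
      apply Finset.prod_congr rfl
      intro j _
      rw [if_pos (by rw [hxy]; rfl)]
    · rw [if_neg hxy]
      have : ∃ j, y j ≠ x j + a j := by
        by_contra hcon
        push Not at hcon
        exact hxy (funext hcon)
      obtain ⟨j, hj⟩ := this
      exact Finset.prod_eq_zero (Finset.mem_univ j) (if_neg hj)

/-- the operator `Z^b` -/
def zop {d : ℕ} (b : Fin d → ZMod 2) : Matrix (Fin d → ZMod 2) (Fin d → ZMod 2) ℂ :=
  tens fun j => if b j = 0 then 1 else pZ

lemma zop_mem {d : ℕ} (b : Fin d → ZMod 2) : zop b ∈ pauli d := by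
  refine ⟨_, fun j => ?_, rfl⟩
  split_ifs
  · exact Submonoid.one_mem _
  · exact Submonoid.subset_closure (by simp)

/-- the sum of the operators `Z^b` -/
lemma sum_zop (d : ℕ) (x y : Fin d → ZMod 2) :
    (∑ b, zop b) x y = if x = 0 ∧ y = 0 then (2 : ℂ) ^ d else 0 := by
  rw [Matrix.sum_apply]
  unfold zop tens
  simp only [Matrix.of_apply]
  have h1 : ∀ b : Fin d → ZMod 2, ∏ j, (if b j = 0 then (1 : Matrix (ZMod 2) (ZMod 2) ℂ) else pZ)
      (x j) (y j) = ∏ j, (fun j (c : ZMod 2) =>
        (if c = 0 then (1 : Matrix (ZMod 2) (ZMod 2) ℂ) else pZ) (x j) (y j)) j (b j) := fun b => rfl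
  rw [Finset.sum_congr rfl (fun b _ => h1 b)]
  have h2 := Finset.prod_univ_sum (fun _ : Fin d => (Finset.univ : Finset (ZMod 2)))
    (fun j (c : ZMod 2) => (if c = 0 then (1 : Matrix (ZMod 2) (ZMod 2) ℂ) else pZ) (x j) (y j))
  rw [Fintype.piFinset_univ] at h2
  rw [← h2]
  have h3 : ∀ j, ∑ c : ZMod 2, (if c = 0 then (1 : Matrix (ZMod 2) (ZMod 2) ℂ) else pZ) (x j) (y j) =
      if x j = 0 ∧ y j = 0 then (2 : ℂ) else 0 := by
    intro j
    have e : ∀ g : ZMod 2 → ℂ, ∑ c, g c = g 0 + g 1 := fun g => Fin.sum_univ_two g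
    rw [e, if_pos rfl, if_neg (by decide), Matrix.one_apply]
    unfold pZ
    rw [Matrix.of_apply]
    rcases zmod2 (x j) with hx | hx <;> rcases zmod2 (y j) with hy | hy <;> rw [hx, hy]
    · rw [if_pos rfl, if_pos rfl, if_pos rfl, if_pos ⟨rfl, rfl⟩]; norm_num
    · rw [if_neg (by decide), if_neg (by decide), if_neg (by decide), add_zero]
    · rw [if_neg (by decide), if_neg (by decide), if_neg (by decide), add_zero]
    · rw [if_pos rfl, if_pos rfl, if_neg (by decide), if_neg (by decide)]; norm_num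
  rw [Finset.prod_congr rfl (fun j _ => h3 j)]
  by_cases hxy : x = 0 ∧ y = 0
  · rw [if_pos hxy, hxy.1, hxy.2]
    simp
  · rw [if_neg hxy]
    have : ∃ j, ¬ (x j = 0 ∧ y j = 0) := by
      by_contra hcon
      push Not at hcon
      exact hxy ⟨funext fun j => (hcon j).1, funext fun j => (hcon j).2⟩
    obtain ⟨j, hj⟩ := this
    exact Finset.prod_eq_zero (Finset.mem_univ j) (if_neg hj)

lemma zop_e (d : ℕ) (b : Fin d → ZMod 2) :
    (zop b).mulVec (Pi.single 0 1) = Pi.single 0 1 := by
  funext x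
  rw [Matrix.mulVec_single_one, Matrix.col_apply]
  unfold zop tens
  rw [Matrix.of_apply]
  by_cases hx : x = 0
  · rw [hx, Pi.single_eq_same]
    apply Finset.prod_eq_one
    intro j _
    beta_reduce
    split_ifs
    · simp
    · simp [pZ]
  · rw [Pi.single_eq_of_ne hx]
    have : ∃ j, x j ≠ 0 := by
      by_contra hcon
      push Not at hcon
      exact hx (funext hcon)
    obtain ⟨j, hj⟩ := this
    apply Finset.prod_eq_zero (Finset.mem_univ j)
    beta_reduce
    rw [Pi.zero_apply]
    split_ifs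
    · rw [Matrix.one_apply, if_neg hj]
    · unfold pZ
      rw [Matrix.of_apply, if_neg hj]

/-- **Stabilizer states belong to the class.** -/
theorem IsStab.cls {d : ℕ} {s : (Fin d → ZMod 2) → ℂ} (hs : IsStab s) : Cls s := by
  obtain ⟨U, ⟨hU, hN⟩, rfl⟩ := hs
  set ψ := U.mulVec (Pi.single 0 1) with hψ
  have hUU : U⁻¹ = star U := by
    apply Matrix.inv_eq_right_inv
    exact Matrix.mem_unitaryGroup_iff.1 hU
  have hUU1 : U⁻¹ * U = 1 := by
    rw [hUU]
    exact Matrix.mem_unitaryGroup_iff'.1 hU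
  -- the stabilizing Pauli operators
  have hg : ∀ b : Fin d → ZMod 2, Shape (U * zop b * U⁻¹) := fun b =>
    shape_mem ((hN _).1 (zop_mem b))
  choose a h χ h0 h1 h2 using hg
  have hfix : ∀ b, (U * zop b * U⁻¹).mulVec ψ = ψ := by
    intro b
    rw [hψ, Matrix.mulVec_mulVec, Matrix.mul_assoc, hUU1, Matrix.mul_one, ← Matrix.mulVec_mulVec,
      zop_e]
  have hfix' : ∀ b x, ψ x = h b x * ψ (x + a b) := by
    intro b x
    have h3 := congrFun (hfix b) x
    rw [Matrix.mulVec, dotProduct, Finset.sum_eq_single (x + a b)] at h3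
    · rw [h2, if_pos rfl] at h3
      exact h3.symm
    · intro y _ hy
      rw [h2, if_neg hy, zero_mul]
    · intro hcon
      exact absurd (Finset.mem_univ _) hcon
  -- the projection on `ψ`
  have hproj : ∀ x y, ψ x * star (ψ y) * 2 ^ d = ∑ b : Fin d → ZMod 2, (U * zop b * U⁻¹) x y := by
    intro x y
    have h3 : ∑ b : Fin d → ZMod 2, U * zop b * U⁻¹ = U * (∑ b, zop b) * U⁻¹ := by
      rw [Matrix.mul_sum, Matrix.sum_mul]
    rw [← Matrix.sum_apply, h3, Matrix.mul_apply, Finset.sum_eq_single 0]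
    · rw [Matrix.mul_apply, Finset.sum_eq_single 0]
      · rw [sum_zop, if_pos ⟨rfl, rfl⟩, hUU, Matrix.star_apply]
        rw [hψ, Matrix.mulVec_single_one]
        simp only [Matrix.col_apply]
        ring
      · intro z _ hz
        rw [sum_zop, if_neg (fun h => hz h.1), mul_zero]
      · intro hcon
        exact absurd (Finset.mem_univ _) hcon
    · intro z _ hz
      rw [Matrix.mul_apply, Finset.sum_eq_zero, zero_mul]
      intro y _
      rw [sum_zop, if_neg (fun h => hz h.2), mul_zero]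
    · intro hcon
      exact absurd (Finset.mem_univ _) hcon
  have hshift : ∀ x y, ψ x ≠ 0 → ψ y ≠ 0 → ∃ b, y = x + a b := by
    intro x y hx hy
    have h3 := hproj x y
    have h4 : ∑ b : Fin d → ZMod 2, (U * zop b * U⁻¹) x y ≠ 0 := by
      rw [← h3]
      exact mul_ne_zero (mul_ne_zero hx (star_ne_zero.2 hy)) (pow_ne_zero _ two_ne_zero)
    obtain ⟨b, _, hb⟩ := Finset.exists_ne_zero_of_sum_ne_zero h4
    refine ⟨b, ?_⟩
    by_contra hcon
    exact hb (by rw [h2, if_neg hcon])
  by_cases hz : ∃ x₀, ψ x₀ ≠ 0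
  swap
  · left
    funext x
    push Not at hz
    exact hz x
  obtain ⟨x₀, hx₀⟩ := hz
  right
  let W : AddSubgroup (Fin d → ZMod 2) :=
    { carrier := {c | ∀ x, ψ x ≠ 0 → ψ (x + c) ≠ 0}
      zero_mem' := fun x hx => by rwa [add_zero]
      add_mem' := by
        intro c c' hc hc' x hx
        rw [← add_assoc]
        exact hc' _ (hc x hx)
      neg_mem' := by
        intro c hc
        rwa [ZModModule.neg_eq_self] }
  have hW : ∀ c, c ∈ W ↔ ∀ x, ψ x ≠ 0 → ψ (x + c) ≠ 0 := fun c => Iff.rfl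
  have haW : ∀ b, a b ∈ W := by
    intro b
    rw [hW]
    intro x hx h3
    apply hx
    rw [hfix' b x, h3, mul_zero]
  have hWa : ∀ c ∈ W, ∃ b, c = a b := by
    intro c hc
    obtain ⟨b, hb⟩ := hshift x₀ (x₀ + c) hx₀ (hc x₀ hx₀)
    exact ⟨b, add_left_cancel hb⟩
  have hsupp : ∀ x, ψ x ≠ 0 ↔ x + x₀ ∈ W := by
    intro x
    constructor
    · intro hx
      obtain ⟨b, hb⟩ := hshift x₀ x hx₀ hx
      have : x + x₀ = a b := by
        rw [hb]
        have : x₀ + a b + x₀ = a b + (x₀ + x₀) := by abel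
        rw [this, aself, add_zero]
      rw [this]
      exact haW b
    · intro hx
      have h3 := hx x₀ hx₀
      have : x₀ + (x + x₀) = x := by
        have : x₀ + (x + x₀) = x + (x₀ + x₀) := by abel
        rw [this, aself, add_zero]
      rwa [this] at h3
  choose! bb hbb using hWa
  refine ⟨x₀, W, fun u c => (χ (bb u) c)⁻¹, hsupp, fun x u c hx hu hc => ?_⟩
  have e1 := hfix' (bb u) x
  have e2 := hfix' (bb u) (x + c)
  rw [← hbb u hu] at e1 e2
  rw [h1] at e2
  have e3 : x + c + u = x + u + c := by abel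
  rw [e3] at e2
  have hn1 := h0 (bb u) x
  have hn2 : χ (bb u) c ≠ 0 := by
    intro h3
    apply h0 (bb u) (x + c)
    rw [h1, h3, mul_zero]
  have e4 : ψ (x + u) = ψ x / h (bb u) x := by rw [e1]; field_simp
  have e5 : ψ (x + u + c) = ψ (x + c) / (h (bb u) x * χ (bb u) c) := by rw [e2]; field_simp
  rw [e4, e5]
  field_simp

/-! ### The vectors of the standard basis are stabilizer states -/

/-- the operator `X^a` -/
def xop {d : ℕ} (a : Fin d → ZMod 2) : Matrix (Fin d → ZMod 2) (Fin d → ZMod 2) ℂ :=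
  tens fun j => if a j = 0 then 1 else pX

lemma tens_mul {d : ℕ} (M N : Fin d → Matrix (ZMod 2) (ZMod 2) ℂ) :
    tens M * tens N = tens fun j => M j * N j := by
  ext x y
  rw [Matrix.mul_apply]
  unfold tens
  simp only [Matrix.of_apply, Matrix.mul_apply]
  rw [Finset.prod_univ_sum, Fintype.piFinset_univ]
  apply Finset.sum_congr rfl
  intro z _
  rw [← Finset.prod_mul_distrib]

lemma tens_one {d : ℕ} : tens (fun _ : Fin d => (1 : Matrix (ZMod 2) (ZMod 2) ℂ)) = 1 := by
  ext x y
  unfold tens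
  rw [Matrix.of_apply]
  by_cases h : x = y
  · rw [h, Matrix.one_apply_eq]
    apply Finset.prod_eq_one
    intro j _
    exact Matrix.one_apply_eq _
  · rw [Matrix.one_apply_ne h]
    have : ∃ j, x j ≠ y j := by
      by_contra hcon
      push Not at hcon
      exact h (funext hcon)
    obtain ⟨j, hj⟩ := this
    exact Finset.prod_eq_zero (Finset.mem_univ j) (Matrix.one_apply_ne hj)

lemma pX_sq : pX * pX = 1 := by
  ext x y
  rw [Matrix.mul_apply]
  have e : ∀ g : ZMod 2 → ℂ, ∑ c, g c = g 0 + g 1 := fun g => Fin.sum_univ_two g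
  rw [e]
  unfold pX
  simp only [Matrix.of_apply]
  rcases zmod2 x with rfl | rfl <;> rcases zmod2 y with rfl | rfl
  · rw [if_pos rfl, if_neg (by decide), if_neg (by decide), Matrix.one_apply_eq]; norm_num
  · rw [if_pos rfl, if_neg (by decide), if_pos rfl, Matrix.one_apply_ne (by decide)]; norm_num
  · rw [if_neg (by decide), if_pos rfl, if_pos rfl, Matrix.one_apply_ne (by decide)]; norm_num
  · rw [if_neg (by decide), if_neg (by decide), if_pos rfl, Matrix.one_apply_eq]; norm_num

lemma xop_sq {d : ℕ} (a : Fin d → ZMod 2) : xop a * xop a = 1 := by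
  unfold xop
  rw [tens_mul]
  have : (fun j => (if a j = 0 then (1 : Matrix (ZMod 2) (ZMod 2) ℂ) else pX) *
      (if a j = 0 then (1 : Matrix (ZMod 2) (ZMod 2) ℂ) else pX)) = fun _ => 1 := by
    funext j
    split_ifs
    · rw [Matrix.one_mul]
    · exact pX_sq
  rw [this, tens_one]

lemma pX_star : star pX = pX := by
  ext x y
  rw [Matrix.star_apply]
  unfold pX
  simp only [Matrix.of_apply]
  by_cases h : x = y
  · rw [if_pos h, if_pos h.symm, star_zero]
  · rw [if_neg h, if_neg (fun h' => h h'.symm), star_one]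

lemma xop_star {d : ℕ} (a : Fin d → ZMod 2) : star (xop a) = xop a := by
  ext x y
  rw [Matrix.star_apply]
  unfold xop tens
  simp only [Matrix.of_apply]
  rw [star_prod]
  apply Finset.prod_congr rfl
  intro j _
  split_ifs
  · rw [Matrix.one_apply, Matrix.one_apply]
    by_cases h : x j = y j
    · rw [if_pos h, if_pos h.symm, star_one]
    · rw [if_neg h, if_neg (fun h' => h h'.symm), star_zero]
  · have := congrFun (congrFun pX_star (x j)) (y j)
    rwa [Matrix.star_apply] at this

lemma xop_clifford {d : ℕ} (a : Fin d → ZMod 2) : IsClifford (xop a) := by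
  have hinv : (xop a)⁻¹ = xop a := Matrix.inv_eq_right_inv (xop_sq a)
  have hconj : ∀ P, P ∈ pauli d → xop a * P * xop a ∈ pauli d := by
    rintro _ ⟨M, hM, rfl⟩
    unfold xop
    rw [tens_mul, tens_mul]
    refine ⟨_, fun j => ?_, rfl⟩
    have hx : (if a j = 0 then (1 : Matrix (ZMod 2) (ZMod 2) ℂ) else pX) ∈ pauliOne := by
      split_ifs
      · exact Submonoid.one_mem _
      · exact Submonoid.subset_closure (by simp)
    exact Submonoid.mul_mem _ (Submonoid.mul_mem _ hx (hM j)) hx
  refine ⟨?_, fun P => ?_⟩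
  · rw [Matrix.mem_unitaryGroup_iff, xop_star, xop_sq]
  · rw [hinv]
    refine ⟨hconj P, fun h => ?_⟩
    have h1 := hconj _ h
    have h2 : xop a * (xop a * P * xop a) * xop a = (xop a * xop a) * P * (xop a * xop a) := by
      simp only [Matrix.mul_assoc]
    rw [h2, xop_sq, Matrix.one_mul, Matrix.mul_one] at h1
    exact h1

lemma isStab_single {d : ℕ} (a : Fin d → ZMod 2) : IsStab (Pi.single a 1 : (Fin d → ZMod 2) → ℂ) := by
  refine ⟨xop a, xop_clifford a, ?_⟩
  funext x
  rw [Matrix.mulVec_single_one, Matrix.col_apply]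
  unfold xop tens
  rw [Matrix.of_apply]
  by_cases hx : x = a
  · rw [hx, Pi.single_eq_same]
    symm
    apply Finset.prod_eq_one
    intro j _
    beta_reduce
    rw [Pi.zero_apply]
    split_ifs with h
    · rw [h]; exact Matrix.one_apply_eq _
    · have : a j = 1 := (zmod2 _).resolve_left h
      rw [this]
      simp [pX]
  · rw [Pi.single_eq_of_ne hx]
    symm
    have : ∃ j, x j ≠ a j := by
      by_contra hcon
      push Not at hcon
      exact hx (funext hcon)
    obtain ⟨j, hj⟩ := this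
    apply Finset.prod_eq_zero (Finset.mem_univ j)
    beta_reduce
    rw [Pi.zero_apply]
    split_ifs with h
    · rw [h] at hj
      rw [Matrix.one_apply_ne hj]
    · have h1 : a j = 1 := (zmod2 _).resolve_left h
      rw [h1] at hj
      have h2 : x j = 0 := (zmod2 _).resolve_right hj
      unfold pX
      rw [Matrix.of_apply, h2, if_pos rfl]

/-- every vector is a combination of stabilizer states -/
lemma exists_decomp {d : ℕ} (T : (Fin d → ZMod 2) → ℂ) : ∃ r : ℕ,
    ∃ (α : Fin r → ℂ) (S : Fin r → (Fin d → ZMod 2) → ℂ), (∀ i, IsStab (S i)) ∧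
      T = ∑ i, α i • S i := by
  let e := Fintype.equivFin (Fin d → ZMod 2)
  refine ⟨_, fun i => T (e.symm i), fun i => Pi.single (e.symm i) 1, fun i => isStab_single _, ?_⟩
  rw [← Equiv.sum_comp e]
  simp only [Equiv.symm_apply_apply]
  funext x
  rw [Finset.sum_apply, Finset.sum_eq_single x]
  · simp
  · intro y _ hy
    rw [Pi.smul_apply, Pi.single_eq_of_ne (Ne.symm hy), smul_zero]
  · intro h
    exact absurd (Finset.mem_univ _) h

lemma stabR_spec {d : ℕ} (T : (Fin d → ZMod 2) → ℂ) :
    ∃ (α : Fin (stabR T) → ℂ) (S : Fin (stabR T) → (Fin d → ZMod 2) → ℂ), (∀ i, IsStab (S i)) ∧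
      T = ∑ i, α i • S i :=
  Nat.sInf_mem (exists_decomp T)

end Pool.Agent.TH674.Stab
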