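import Mathlib

/-!
# Functions on `F_2`-vector spaces with affine support and quadratic phases

`Cls f`: the function `f` is zero, or its support is a coset of a subgroup `U` and on the support
the second multiplicative differences of `f` do not depend on the point. The class is closed under
products, affine substitutions and partial sums.
-/

set_option autoImplicit false
set_option linter.unusedSectionVars false

namespace Pool.Agent.TH674.Stab

open Finset

variable {V V' : Type*} [AddCommGroup V] [Module (ZMod 2) V] [AddCommGroup V'] [Module (ZMod 2) V']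

/-- affine support and quadratic phase -/
structure Dat (f : V → ℂ) (x₀ : V) (U : AddSubgroup V) (D : V → V → ℂ) : Prop where
  supp : ∀ x, f x ≠ 0 ↔ x + x₀ ∈ U
  quad : ∀ x a b, x + x₀ ∈ U → a ∈ U → b ∈ U →
    f (x + a + b) * f x = D a b * (f (x + a) * f (x + b))

/-- the class of functions -/
def Cls (f : V → ℂ) : Prop := f = 0 ∨ ∃ (x₀ : V) (U : AddSubgroup V) (D : V → V → ℂ), Dat f x₀ U D

lemma aself (x : V) : x + x = 0 := ZModModule.add_self x

lemma mem_add' {U : AddSubgroup V} {x x₀ a : V} (h : x + x₀ ∈ U) (ha : a ∈ U) :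
    x + a + x₀ ∈ U := by
  have := U.add_mem h ha
  have e : x + a + x₀ = x + x₀ + a := by abel
  rwa [e]

lemma mem_shift {U : AddSubgroup V} {x y z : V} (h : x + z ∈ U) (h' : y + z ∈ U) : x + y ∈ U := by
  have h1 := U.add_mem h h'
  have e : x + z + (y + z) = x + y := by
    have : x + z + (y + z) = x + y + (z + z) := by abel
    rw [this, aself, add_zero]
  rwa [e] at h1

namespace Dat

variable {f : V → ℂ} {x₀ : V} {U : AddSubgroup V} {D : V → V → ℂ} (h : Dat f x₀ U D)

include h

lemma base_mem : x₀ + x₀ ∈ U := by rw [aself]; exact U.zero_mem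

lemma ne {x : V} (hx : x + x₀ ∈ U) : f x ≠ 0 := (h.supp x).2 hx

lemma ne_add {x a : V} (hx : x + x₀ ∈ U) (ha : a ∈ U) : f (x + a) ≠ 0 := h.ne (mem_add' hx ha)

lemma zero_right {a : V} (ha : a ∈ U) : D a 0 = 1 := by
  have h1 := h.quad x₀ a 0 h.base_mem ha U.zero_mem
  rw [add_zero, add_zero] at h1
  have h2 := h.ne_add h.base_mem ha
  have h3 := h.ne h.base_mem
  have h4 : D a 0 * (f (x₀ + a) * f x₀) = 1 * (f (x₀ + a) * f x₀) := by rw [← h1, one_mul]
  exact mul_right_cancel₀ (mul_ne_zero h2 h3) h4

lemma symm {a b : V} (ha : a ∈ U) (hb : b ∈ U) : D a b = D b a := by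
  have h1 := h.quad x₀ a b h.base_mem ha hb
  have h2 := h.quad x₀ b a h.base_mem hb ha
  have e : x₀ + b + a = x₀ + a + b := by abel
  rw [e, h1, mul_comm (f (x₀ + b))] at h2
  exact mul_right_cancel₀ (mul_ne_zero (h.ne_add h.base_mem ha) (h.ne_add h.base_mem hb)) h2

lemma add_right {a b c : V} (ha : a ∈ U) (hb : b ∈ U) (hc : c ∈ U) :
    D a (b + c) = D a b * D a c := by
  have hx := h.base_mem
  have h1 := h.quad x₀ a (b + c) hx ha (U.add_mem hb hc)
  have h2 := h.quad (x₀ + b) a c (mem_add' hx hb) ha hc
  have h3 := h.quad x₀ a b hx ha hb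
  have e1 : x₀ + b + a + c = x₀ + a + (b + c) := by abel
  have e2 : x₀ + b + a = x₀ + a + b := by abel
  have e3 : x₀ + b + c = x₀ + (b + c) := by abel
  rw [e1, e2, e3] at h2
  have n1 := h.ne_add hx ha
  have n2 := h.ne_add hx hb
  have n3 := h.ne_add hx (U.add_mem hb hc)
  have n := mul_ne_zero (mul_ne_zero n1 n2) n3
  apply mul_right_cancel₀ n
  calc D a (b + c) * (f (x₀ + a) * f (x₀ + b) * f (x₀ + (b + c)))
      = (D a (b + c) * (f (x₀ + a) * f (x₀ + (b + c)))) * f (x₀ + b) := by ring
    _ = (f (x₀ + a + (b + c)) * f (x₀ + b)) * f x₀ := by rw [← h1]; ring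
    _ = D a c * (f (x₀ + (b + c))) * (f (x₀ + a + b) * f x₀) := by rw [h2]; ring
    _ = D a b * D a c * (f (x₀ + a) * f (x₀ + b) * f (x₀ + (b + c))) := by rw [h3]; ring

lemma add_left {a b c : V} (ha : a ∈ U) (hb : b ∈ U) (hc : c ∈ U) :
    D (a + b) c = D a c * D b c := by
  rw [h.symm (U.add_mem ha hb) hc, h.add_right hc ha hb, h.symm hc ha, h.symm hc hb]

lemma sq {a b : V} (ha : a ∈ U) (hb : b ∈ U) : D a b = 1 ∨ D a b = -1 := by
  have h1 := h.add_right ha hb hb
  rw [aself, h.zero_right ha] at h1
  exact mul_self_eq_one_iff.1 h1.symm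

end Dat

lemma Cls.zero : Cls (0 : V → ℂ) := Or.inl rfl

lemma Cls.const_mul {f : V → ℂ} (hf : Cls f) (c : ℂ) : Cls (fun x => c * f x) := by
  rcases hf with rfl | ⟨x₀, U, D, h⟩
  · left; funext x; simp
  by_cases hc : c = 0
  · left; funext x; simp [hc]
  right
  refine ⟨x₀, U, D, fun x => ?_, fun x a b hx ha hb => ?_⟩
  · rw [← h.supp x]
    simp [hc]
  · have := h.quad x a b hx ha hb
    linear_combination c ^ 2 * this

/-- products -/
lemma Cls.mul {f g : V → ℂ} (hf : Cls f) (hg : Cls g) : Cls (fun x => f x * g x) := by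
  rcases hf with rfl | ⟨x₀, U, D, h⟩
  · left; funext x; simp
  rcases hg with rfl | ⟨y₀, W, E, k⟩
  · left; funext x; simp
  by_cases hne : ∃ x₁, x₁ + x₀ ∈ U ∧ x₁ + y₀ ∈ W
  swap
  · left
    funext x
    push Not at hne
    by_cases h1 : x + x₀ ∈ U
    · have h2 := hne x h1
      have h3 : g x = 0 := by
        by_contra h4
        exact h2 ((k.supp x).1 h4)
      simp [h3]
    · have h3 : f x = 0 := by
        by_contra h4
        exact h1 ((h.supp x).1 h4)
      simp [h3]
  obtain ⟨x₁, h1, h2⟩ := hne
  right
  have key : ∀ x, x + x₁ ∈ U ⊓ W ↔ x + x₀ ∈ U ∧ x + y₀ ∈ W := by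
    intro x
    rw [AddSubgroup.mem_inf]
    constructor
    · rintro ⟨h3, h4⟩
      constructor
      · have h5 : x₀ + x₁ ∈ U := by rwa [add_comm]
        exact mem_shift h3 h5
      · have h5 : y₀ + x₁ ∈ W := by rwa [add_comm]
        exact mem_shift h4 h5
    · rintro ⟨h3, h4⟩
      exact ⟨mem_shift h3 h1, mem_shift h4 h2⟩
  refine ⟨x₁, U ⊓ W, fun a b => D a b * E a b, fun x => ?_, fun x a b hx ha hb => ?_⟩
  · rw [key, ← h.supp, ← k.supp]
    exact mul_ne_zero_iff
  · rw [key] at hx
    have e1 := h.quad x a b hx.1 ha.1 hb.1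
    have e2 := k.quad x a b hx.2 ha.2 hb.2
    calc f (x + a + b) * g (x + a + b) * (f x * g x)
        = (f (x + a + b) * f x) * (g (x + a + b) * g x) := by ring
      _ = _ := by rw [e1, e2]; ring

/-- affine substitutions -/
lemma Cls.comp {f : V → ℂ} (hf : Cls f) (l : V' →+ V) (c : V) : Cls (fun x => f (l x + c)) := by
  rcases hf with rfl | ⟨x₀, U, D, h⟩
  · left; rfl
  by_cases hne : ∃ x₁, l x₁ + c + x₀ ∈ U
  swap
  · left
    funext x
    push Not at hne
    by_contra h1
    exact hne x ((h.supp _).1 h1)
  obtain ⟨x₁, h1⟩ := hne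
  right
  have key : ∀ x, x + x₁ ∈ U.comap l ↔ l x + c + x₀ ∈ U := by
    intro x
    rw [AddSubgroup.mem_comap, map_add]
    constructor
    · intro h2
      have h3 := U.add_mem h2 h1
      have e : l x + l x₁ + (l x₁ + c + x₀) = l x + c + x₀ + (l x₁ + l x₁) := by abel
      rw [e, aself, add_zero] at h3
      exact h3
    · intro h2
      have h3 := U.add_mem h2 h1
      have e : l x + c + x₀ + (l x₁ + c + x₀) = l x + l x₁ + (c + c) + (x₀ + x₀) := by abel
      rw [e, aself, aself, add_zero, add_zero] at h3
      exact h3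
  refine ⟨x₁, U.comap l, fun a b => D (l a) (l b), fun x => ?_, fun x a b hx ha hb => ?_⟩
  · rw [key]
    exact h.supp _
  · rw [key] at hx
    have e1 := h.quad (l x + c) (l a) (l b) hx ha hb
    have e2 : l (x + a + b) + c = l x + c + l a + l b := by rw [map_add, map_add]; abel
    have e3 : l (x + a) + c = l x + c + l a := by rw [map_add]; abel
    have e4 : l (x + b) + c = l x + c + l b := by rw [map_add]; abel
    rw [e2, e3, e4]
    exact e1

/-- one step of summation -/
lemma Cls.shift {f : V → ℂ} (hf : Cls f) (e : V) : Cls (fun x => f x + f (x + e)) := by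
  classical
  rcases hf with rfl | ⟨x₀, U, D, h⟩
  · left; funext x; simp
  have hzero : ∀ x, x + x₀ ∉ U → f x = 0 := by
    intro x hx
    by_contra h1
    exact hx ((h.supp x).1 h1)
  by_cases he : e ∈ U
  swap
  · -- the vector `e` is transversal
    right
    set g : V → ℂ := fun x => f x + f (x + e) with hg
    have hper : ∀ x, g (x + e) = g x := by
      intro x
      simp only [hg]
      rw [add_assoc, aself, add_zero, add_comm]
    set pr : V → V := fun a => if a ∈ U then a else a + e with hpr
    have hgp : ∀ y a, g (y + pr a) = g (y + a) := by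
      intro y a
      simp only [hpr]
      split_ifs
      · rfl
      · rw [← add_assoc, hper]
    have hU : ∀ a, a ∈ U ∨ a + e ∈ U → pr a ∈ U := by
      intro a ha
      simp only [hpr]
      split_ifs with h1
      · exact h1
      · exact ha.resolve_left h1
    let W : AddSubgroup V :=
      { carrier := {a | a ∈ U ∨ a + e ∈ U}
        zero_mem' := Or.inl U.zero_mem
        add_mem' := by
          rintro a b (ha | ha) (hb | hb)
          · exact Or.inl (U.add_mem ha hb)
          · right
            have := U.add_mem ha hb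
            rwa [← add_assoc] at this
          · right
            have := U.add_mem ha hb
            have e1 : a + e + b = a + b + e := by abel
            rwa [e1] at this
          · left
            exact mem_shift ha hb
        neg_mem' := by
          intro a ha
          rwa [ZModModule.neg_eq_self] }
    have hW : ∀ a, a ∈ W ↔ a ∈ U ∨ a + e ∈ U := fun a => Iff.rfl
    -- the value on the coset
    have hval : ∀ x, x + x₀ ∈ U → g x = f x := by
      intro x hx
      simp only [hg]
      rw [hzero (x + e), add_zero]
      intro h1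
      apply he
      have h2 := U.add_mem hx h1
      have e1 : x + x₀ + (x + e + x₀) = e + (x + x) + (x₀ + x₀) := by abel
      rwa [e1, aself, aself, add_zero, add_zero] at h2
    have hval2 : ∀ x, x + x₀ ∈ W → ∃ x', x' + x₀ ∈ U ∧ ∀ a, g (x + a) = g (x' + a) := by
      intro x hx
      rcases (hW _).1 hx with h1 | h1
      · exact ⟨x, h1, fun a => rfl⟩
      · refine ⟨x + e, ?_, fun a => ?_⟩
        · have e1 : x + e + x₀ = x + x₀ + e := by abel
          rwa [e1]
        · have e1 : x + e + a = x + a + e := by abel
          rw [e1, hper]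
    refine ⟨x₀, W, fun a b => D (pr a) (pr b), fun x => ?_, fun x a b hx ha hb => ?_⟩
    · constructor
      · intro h1
        rw [hW]
        by_contra h2
        push Not at h2
        apply h1
        change f x + f (x + e) = 0
        rw [hzero x h2.1, hzero (x + e), add_zero]
        have e1 : x + e + x₀ = x + x₀ + e := by abel
        rw [e1]
        exact h2.2
      · intro h1
        obtain ⟨x', h2, h3⟩ := hval2 x h1
        have h4 := h3 0
        rw [add_zero, add_zero] at h4
        change g x ≠ 0
        rw [h4, hval x' h2]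
        exact h.ne h2
    · obtain ⟨x', h2, h3⟩ := hval2 x hx
      have ha' := hU a ha
      have hb' := hU b hb
      change g (x + a + b) * g x = D (pr a) (pr b) * (g (x + a) * g (x + b))
      have k1 : g (x + a + b) = f (x' + pr a + pr b) := by
        rw [add_assoc, h3, ← add_assoc, ← hgp]
        have e1 : x' + a + pr b = x' + pr b + a := by abel
        rw [e1, ← hgp]
        have e2 : x' + pr b + pr a = x' + pr a + pr b := by abel
        rw [e2]
        exact hval _ (mem_add' (mem_add' h2 ha') hb')
      have k2 : g x = f x' := by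
        have h4 := h3 0
        rw [add_zero, add_zero] at h4
        rw [h4, hval x' h2]
      have k3 : g (x + a) = f (x' + pr a) := by
        rw [h3, ← hgp]
        exact hval _ (mem_add' h2 ha')
      have k4 : g (x + b) = f (x' + pr b) := by
        rw [h3, ← hgp]
        exact hval _ (mem_add' h2 hb')
      rw [k1, k2, k3, k4]
      exact h.quad x' (pr a) (pr b) h2 ha' hb'
  -- now `e ∈ U`
  have hsq : ∀ x, x + x₀ ∈ U → f x * f x = D e e * (f (x + e) * f (x + e)) := by
    intro x hx
    have h1 := h.quad x e e hx he he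
    have e1 : x + e + e = x := by rw [add_assoc, aself, add_zero]
    rwa [e1] at h1
  have hmove : ∀ x a, x + x₀ ∈ U → a ∈ U → f (x + a + e) * f x = D e a * (f (x + e) * f (x + a)) := by
    intro x a hx ha
    have h1 := h.quad x e a hx he ha
    have e1 : x + e + a = x + a + e := by abel
    rwa [e1] at h1
  rcases h.sq he he with hD | hD
  · -- real case
    by_cases hne : ∃ x₁, x₁ + x₀ ∈ U ∧ f (x₁ + e) = f x₁
    swap
    · left
      funext x
      push Not at hne
      by_cases hx : x + x₀ ∈ U
      · have h1 := hsq x hx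
        rw [hD, one_mul] at h1
        have h2 := hne x hx
        rcases mul_self_eq_mul_self_iff.1 h1 with h3 | h3
        · exact absurd h3.symm h2
        · change f x + f (x + e) = 0
          rw [h3]; ring
      · change f x + f (x + e) = 0
        rw [hzero x hx, hzero (x + e), add_zero]
        intro h1
        apply hx
        have h2 := U.add_mem h1 he
        have e1 : x + e + x₀ + e = x + x₀ + (e + e) := by abel
        rwa [e1, aself, add_zero] at h2
    obtain ⟨x₁, h1, h1'⟩ := hne
    right
    let W : AddSubgroup V :=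
      { carrier := {a | a ∈ U ∧ D e a = 1}
        zero_mem' := ⟨U.zero_mem, h.zero_right he⟩
        add_mem' := by
          rintro a b ⟨ha, ha'⟩ ⟨hb, hb'⟩
          exact ⟨U.add_mem ha hb, by rw [h.add_right he ha hb, ha', hb', one_mul]⟩
        neg_mem' := by
          intro a ha
          rwa [ZModModule.neg_eq_self] }
    have hW : ∀ a, a ∈ W ↔ a ∈ U ∧ D e a = 1 := fun a => Iff.rfl
    have hfe : ∀ x, x + x₀ ∈ U → f (x + e) = D e (x + x₁) * f x := by
      intro x hx
      have h2 : x + x₁ ∈ U := mem_shift hx h1
      have h3 := hmove x₁ (x + x₁) h1 h2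
      have e1 : x₁ + (x + x₁) = x := by
        have : x₁ + (x + x₁) = x + (x₁ + x₁) := by abel
        rw [this, aself, add_zero]
      rw [e1, h1'] at h3
      have h4 := h.ne h1
      have h5 : f (x + e) * f x₁ = (D e (x + x₁) * f x) * f x₁ := by rw [h3]; ring
      exact mul_right_cancel₀ h4 h5
    have hval : ∀ x, x + x₁ ∈ W → x + x₀ ∈ U ∧ f x + f (x + e) = 2 * f x := by
      intro x hx
      rw [hW] at hx
      have h2 : x + x₀ ∈ U := mem_shift hx.1 (by rwa [add_comm] at h1)
      refine ⟨h2, ?_⟩
      rw [hfe x h2, hx.2]; ring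
    refine ⟨x₁, W, D, fun x => ?_, fun x a b hx ha hb => ?_⟩
    · constructor
      · intro h2
        by_cases hx : x + x₀ ∈ U
        · have h3 : x + x₁ ∈ U := mem_shift hx h1
          rw [hW]
          refine ⟨h3, ?_⟩
          rcases h.sq he h3 with h4 | h4
          · exact h4
          · exfalso
            apply h2
            change f x + f (x + e) = 0
            rw [hfe x hx, h4]; ring
        · exfalso
          apply h2
          change f x + f (x + e) = 0
          rw [hzero x hx, hzero (x + e), add_zero]
          intro h1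
          apply hx
          have h2 := U.add_mem h1 he
          have e1 : x + e + x₀ + e = x + x₀ + (e + e) := by abel
          rwa [e1, aself, add_zero] at h2
      · intro h2
        obtain ⟨h3, h4⟩ := hval x h2
        change f x + f (x + e) ≠ 0
        rw [h4]
        exact mul_ne_zero two_ne_zero (h.ne h3)
    · have m1 : x + a + x₁ ∈ W := mem_add' hx ha
      have m2 : x + b + x₁ ∈ W := mem_add' hx hb
      have m3 : x + a + b + x₁ ∈ W := mem_add' m1 hb
      obtain ⟨k1, k1'⟩ := hval x hx
      obtain ⟨-, k2'⟩ := hval _ m1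
      obtain ⟨-, k3'⟩ := hval _ m2
      obtain ⟨-, k4'⟩ := hval _ m3
      change (f (x + a + b) + f (x + a + b + e)) * (f x + f (x + e)) = D a b *
        ((f (x + a) + f (x + a + e)) * (f (x + b) + f (x + b + e)))
      rw [k1', k2', k3', k4']
      have h5 := h.quad x a b k1 ha.1 hb.1
      linear_combination 4 * h5
  · -- imaginary case
    right
    have heps : ∀ x, x + x₀ ∈ U → ∃ ε : ℂ, ε * ε = -1 ∧ f (x + e) = ε * f x := by
      intro x hx
      have h0 := h.ne hx
      refine ⟨f (x + e) / f x, ?_, by rw [div_mul_cancel₀ _ h0]⟩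
      have h1 := hsq x hx
      rw [hD] at h1
      field_simp
      linear_combination h1
    have hne1 : ∀ ε : ℂ, ε * ε = -1 → 1 + ε ≠ 0 := by
      intro ε h1 h2
      have h3 : ε = -1 := by linear_combination h2
      rw [h3] at h1
      norm_num at h1
    refine ⟨x₀, U, fun a b => D a b * (if D e a = -1 ∧ D e b = -1 then -1 else 1),
      fun x => ?_, fun x a b hx ha hb => ?_⟩
    · constructor
      · intro h2
        by_contra hx
        apply h2
        change f x + f (x + e) = 0
        rw [hzero x hx, hzero (x + e), add_zero]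
        intro h1
        apply hx
        have h2 := U.add_mem h1 he
        have e1 : x + e + x₀ + e = x + x₀ + (e + e) := by abel
        rwa [e1, aself, add_zero] at h2
      · intro hx
        obtain ⟨ε, h1, h2⟩ := heps x hx
        change f x + f (x + e) ≠ 0
        rw [h2]
        have : f x + ε * f x = (1 + ε) * f x := by ring
        rw [this]
        exact mul_ne_zero (hne1 ε h1) (h.ne hx)
    · obtain ⟨ε, h1, h2⟩ := heps x hx
      have h0 := h.ne hx
      have mv : ∀ c, c ∈ U → f (x + c + e) = D e c * ε * f (x + c) := by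
        intro c hc
        have h3 := hmove x c hx hc
        rw [h2] at h3
        have h4 : f (x + c + e) * f x = (D e c * ε * f (x + c)) * f x := by rw [h3]; ring
        exact mul_right_cancel₀ h0 h4
      have q := h.quad x a b hx ha hb
      have e3 : f (x + a + b + e) = D e a * D e b * ε * f (x + a + b) := by
        have := mv (a + b) (U.add_mem ha hb)
        rw [← add_assoc, h.add_right he ha hb] at this
        exact this
      change (f (x + a + b) + f (x + a + b + e)) * (f x + f (x + e)) = D a b * _ *
        ((f (x + a) + f (x + a + e)) * (f (x + b) + f (x + b + e)))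
      rw [h2, mv a ha, mv b hb, e3]
      rcases h.sq he ha with ea | ea <;> rcases h.sq he hb with eb | eb
      · rw [ea, eb, if_neg (by norm_num)]
        linear_combination (1 + ε) ^ 2 * q
      · rw [ea, eb, if_neg (by norm_num)]
        linear_combination (1 - ε) * (1 + ε) * q
      · rw [ea, eb, if_neg (by norm_num)]
        linear_combination (1 - ε) * (1 + ε) * q
      · rw [ea, eb, if_pos ⟨rfl, rfl⟩]
        linear_combination (1 + ε) ^ 2 * q + 2 * D a b * f (x + a) * f (x + b) * h1

end Pool.Agent.TH674.Stab
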