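import Pool.Agent.TH674.Stab.Sum

/-!
# Counting: functions of the class up to scalars, and vectors of signs in a subspace
-/

set_option autoImplicit false
set_option linter.unusedSectionVars false

namespace Pool.Agent.TH674.Stab

open Finset

variable {W : Type*} [AddCommGroup W] [Module (ZMod 2) W]

/-- the generators together with zero -/
def gen0 {n : ℕ} (u : Fin n → W) : Option (Fin n) → W
  | none => 0
  | some i => u i

/-- the data which determine a function of the class up to a scalar -/
abbrev Data (W : Type*) (n : ℕ) : Type _ :=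
  W × (Fin n → W) × (Option (Fin n) → Option (Fin n) → Fin 4)

/-- `f` has the data `δ` -/
def Match {n : ℕ} (δ : Data W n) (f : W → ℂ) : Prop :=
  (∃ D, Dat f δ.1 (AddSubgroup.closure (Set.range δ.2.1)) D) ∧
    ∀ i j, f (δ.1 + gen0 δ.2.1 i + gen0 δ.2.1 j) = Complex.I ^ (δ.2.2 i j : ℕ) * f δ.1

lemma match_unique {n : ℕ} {δ : Data W n} {f g : W → ℂ} (hf : Match δ f) (hg : Match δ g) :
    g = fun x => (g δ.1 / f δ.1) * f x := by
  obtain ⟨⟨D, h⟩, h1⟩ := hf
  obtain ⟨⟨E, k⟩, k1⟩ := hg
  set U := AddSubgroup.closure (Set.range δ.2.1) with hU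
  obtain ⟨x₀, u, q⟩ := δ
  simp only at *
  have hu : ∀ i, u i ∈ U := fun i => AddSubgroup.subset_closure ⟨i, rfl⟩
  have f0 := h.ne h.base_mem
  have g0 := k.ne k.base_mem
  -- the values of the forms on the generators
  have hgen : ∀ i j, D (u i) (u j) = E (u i) (u j) := by
    intro i j
    have a1 := h.quad x₀ (u i) (u j) h.base_mem (hu i) (hu j)
    have a2 := k.quad x₀ (u i) (u j) k.base_mem (hu i) (hu j)
    have b1 := h1 (some i) (some j)
    have b2 := h1 (some i) none
    have b3 := h1 (some j) none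
    have c1 := k1 (some i) (some j)
    have c2 := k1 (some i) none
    have c3 := k1 (some j) none
    simp only [gen0, add_zero] at b1 b2 b3 c1 c2 c3
    rw [b1, b2, b3] at a1
    rw [c1, c2, c3] at a2
    have hI : ∀ m : ℕ, Complex.I ^ m ≠ 0 := fun m => pow_ne_zero _ Complex.I_ne_zero
    have e1 : D (u i) (u j) * (Complex.I ^ (q (some i) none : ℕ) * Complex.I ^ (q (some j) none : ℕ)) =
        Complex.I ^ (q (some i) (some j) : ℕ) := by
      apply mul_right_cancel₀ (mul_ne_zero f0 f0)
      linear_combination -a1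
    have e2 : E (u i) (u j) * (Complex.I ^ (q (some i) none : ℕ) * Complex.I ^ (q (some j) none : ℕ)) =
        Complex.I ^ (q (some i) (some j) : ℕ) := by
      apply mul_right_cancel₀ (mul_ne_zero g0 g0)
      linear_combination -a2
    exact mul_right_cancel₀ (mul_ne_zero (hI _) (hI _)) (e1.trans e2.symm)
  have hgen1 : ∀ a ∈ U, ∀ j, D a (u j) = E a (u j) := by
    intro a ha j
    induction ha using AddSubgroup.closure_induction with
    | mem x hx =>
      obtain ⟨i, rfl⟩ := hx
      exact hgen i j
    | zero =>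
      rw [h.symm U.zero_mem (hu j), h.zero_right (hu j), k.symm U.zero_mem (hu j),
        k.zero_right (hu j)]
    | add x y hx hy ihx ihy =>
      rw [h.add_left hx hy (hu j), k.add_left hx hy (hu j), ihx, ihy]
    | neg x hx ihx => rwa [ZModModule.neg_eq_self]
  have hgen2 : ∀ a ∈ U, ∀ b ∈ U, D a b = E a b := by
    intro a ha b hb
    induction hb using AddSubgroup.closure_induction with
    | mem x hx =>
      obtain ⟨i, rfl⟩ := hx
      exact hgen1 a ha i
    | zero => rw [h.zero_right ha, k.zero_right ha]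
    | add x y hx hy ihx ihy =>
      rw [h.add_right ha hx hy, k.add_right ha hx hy, ihx, ihy]
    | neg x hx ihx => rwa [ZModModule.neg_eq_self]
  have hval : ∀ a ∈ U, g (x₀ + a) = (g x₀ / f x₀) * f (x₀ + a) := by
    intro a ha
    induction ha using AddSubgroup.closure_induction with
    | mem x hx =>
      obtain ⟨i, rfl⟩ := hx
      have b2 := h1 (some i) none
      have c2 := k1 (some i) none
      simp only [gen0, add_zero] at b2 c2
      rw [b2, c2]
      field_simp
    | zero =>
      rw [add_zero]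
      field_simp
    | add x y hx hy ihx ihy =>
      have a1 := h.quad x₀ x y h.base_mem hx hy
      have a2 := k.quad x₀ x y k.base_mem hx hy
      rw [ihx, ihy, ← hgen2 x hx y hy] at a2
      rw [← add_assoc]
      have e : g (x₀ + x + y) * g x₀ = (g x₀ / f x₀ * f (x₀ + x + y)) * g x₀ := by
        rw [a2]
        have : f (x₀ + x + y) = D x y * (f (x₀ + x) * f (x₀ + y)) / f x₀ := by
          rw [← a1]; field_simp
        rw [this]
        field_simp
      exact mul_right_cancel₀ g0 e
    | neg x hx ihx => rwa [ZModModule.neg_eq_self]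
  funext x
  by_cases hx : x + x₀ ∈ U
  · have h2 := hval _ hx
    have e : x₀ + (x + x₀) = x := by
      have : x₀ + (x + x₀) = x + (x₀ + x₀) := by abel
      rw [this, aself, add_zero]
    rwa [e] at h2
  · have h2 : f x = 0 := by
      by_contra h3
      exact hx ((h.supp x).1 h3)
    have h3 : g x = 0 := by
      by_contra h3
      exact hx ((k.supp x).1 h3)
    rw [h2, h3, mul_zero]

open Classical in
/-- the function with given data -/
noncomputable def rec {n : ℕ} (δ : Data W n) : W → ℂ :=
  if h : ∃ f, Match δ f then h.choose else 0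

lemma exists_gen [Module.Finite (ZMod 2) W] {n : ℕ} (hn : Module.finrank (ZMod 2) W ≤ n)
    (U : AddSubgroup W) : ∃ u : Fin n → W, AddSubgroup.closure (Set.range u) = U := by
  set U' : Submodule (ZMod 2) W := AddSubgroup.toZModSubmodule 2 U with hU'
  have hmem : ∀ x, x ∈ U' ↔ x ∈ U := fun x => Iff.rfl
  have hr : Module.finrank (ZMod 2) U' ≤ n := (Submodule.finrank_le U').trans hn
  set b := Module.finBasis (ZMod 2) U' with hb
  refine ⟨fun i => if h : (i : ℕ) < Module.finrank (ZMod 2) U' then (b ⟨i, h⟩ : W) else 0, ?_⟩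
  apply le_antisymm
  · rw [AddSubgroup.closure_le]
    rintro _ ⟨i, rfl⟩
    simp only
    split_ifs with h
    · exact (b ⟨i, h⟩).2
    · exact U.zero_mem
  · intro x hx
    have h1 : x = ∑ i, b.repr ⟨x, hx⟩ i • (b i : W) := by
      have h2 := b.sum_repr ⟨x, hx⟩
      have h3 := congrArg (fun y : U' => (y : W)) h2
      simp only [Submodule.coe_sum, Submodule.coe_smul] at h3
      exact h3.symm
    rw [h1]
    apply sum_mem
    intro i _
    have h2 : (b i : W) ∈ AddSubgroup.closure (Set.range fun i : Fin n =>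
        if h : (i : ℕ) < Module.finrank (ZMod 2) U' then (b ⟨i, h⟩ : W) else 0) := by
      apply AddSubgroup.subset_closure
      refine ⟨⟨i, lt_of_lt_of_le i.2 hr⟩, ?_⟩
      simp only
      rw [dif_pos i.2]
    rcases zmod2 (b.repr ⟨x, hx⟩ i) with h3 | h3
    · rw [h3, zero_smul]; exact AddSubgroup.zero_mem _
    · rw [h3, one_smul]; exact h2

/-- a square root of `± 1` is a power of `i` -/
lemma pow_I {z : ℂ} (h : z * z = 1 ∨ z * z = -1) : ∃ m : Fin 4, z = Complex.I ^ (m : ℕ) := by
  rcases h with h | h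
  · rcases mul_self_eq_one_iff.1 h with rfl | rfl
    · exact ⟨0, by simp⟩
    · exact ⟨2, by simp⟩
  · have h1 : z * z = Complex.I * Complex.I := by rw [h, Complex.I_mul_I]
    rcases mul_self_eq_mul_self_iff.1 h1 with rfl | rfl
    · exact ⟨1, by simp⟩
    · refine ⟨3, ?_⟩
      change -Complex.I = Complex.I ^ 3
      rw [pow_succ, Complex.I_sq]; ring

theorem exists_match [Module.Finite (ZMod 2) W] {n : ℕ} (hn : Module.finrank (ZMod 2) W ≤ n)
    {f : W → ℂ} (hf : Cls f) : ∃ (δ : Data W n) (c : ℂ), f = fun x => c * rec δ x := by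
  classical
  rcases hf with rfl | ⟨x₀, U, D, h⟩
  · exact ⟨(0, fun _ => 0, fun _ _ => 0), 0, by funext x; simp⟩
  obtain ⟨u, hu⟩ := exists_gen hn U
  have hu' : ∀ i, gen0 u i ∈ U := by
    intro i
    rcases i with _ | i
    · exact U.zero_mem
    · rw [← hu]; exact AddSubgroup.subset_closure ⟨i, rfl⟩
  have h0 := h.ne h.base_mem
  have hq : ∀ i j, ∃ m : Fin 4, f (x₀ + gen0 u i + gen0 u j) / f x₀ = Complex.I ^ (m : ℕ) := by
    intro i j
    apply pow_I
    have ha := U.add_mem (hu' i) (hu' j)
    have h1 := h.quad x₀ _ _ h.base_mem ha ha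
    have e1 : x₀ + (gen0 u i + gen0 u j) + (gen0 u i + gen0 u j) = x₀ := by
      rw [add_assoc, aself, add_zero]
    rw [e1] at h1
    have h2 := h.ne_add h.base_mem ha
    rw [← add_assoc] at h2 h1
    rcases h.sq ha ha with h3 | h3
    · left
      rw [h3] at h1
      rw [div_mul_div_comm, h1, one_mul]
      exact div_self (mul_ne_zero h2 h2)
    · right
      rw [h3] at h1
      rw [div_mul_div_comm, h1, neg_one_mul, div_neg]
      rw [div_self (mul_ne_zero h2 h2)]
  choose q hq using hq
  set δ : Data W n := (x₀, u, q) with hδ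
  have hm : Match δ f := by
    refine ⟨⟨D, ?_⟩, fun i j => ?_⟩
    · simp only [hδ]
      rw [hu]
      exact h
    · have := hq i j
      simp only [hδ]
      rw [← this]
      field_simp
  have hex : ∃ f, Match δ f := ⟨f, hm⟩
  have hr : rec δ = hex.choose := dif_pos hex
  refine ⟨δ, f δ.1 / rec δ δ.1, ?_⟩
  have := match_unique (hr ▸ hex.choose_spec) hm
  exact this

/-- vectors of signs in a subspace -/
theorem card_signs {X : Type*} [Fintype X] [DecidableEq X] (E : Submodule ℂ (X → ℂ)) (r : ℕ)
    (hr : Module.finrank ℂ E ≤ r) :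
    Nat.card {σ : X → ZMod 2 // (fun x => sg (σ x)) ∈ E} ≤ 2 ^ r := by
  classical
  let ev : X → Module.Dual ℂ E := fun x => (LinearMap.proj x).comp E.subtype
  obtain ⟨b, hb, hspan, hli⟩ := exists_linearIndependent ℂ (Set.range ev)
  have hfin : b.Finite := (Set.finite_range ev).subset hb
  have := hfin.fintype
  have hcard : Fintype.card b ≤ r := by
    have h1 := hli.fintype_card_le_finrank
    rw [Subspace.dual_finrank_eq] at h1
    exact h1.trans hr
  have hx : ∀ φ : b, ∃ x, ev x = φ := fun φ => hb φ.2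
  choose x hx using hx
  have hinj : Function.Injective (fun (σ : {σ : X → ZMod 2 // (fun x => sg (σ x)) ∈ E}) (φ : b) =>
      σ.1 (x φ)) := by
    intro σ τ h
    have h1 : ∀ φ ∈ Submodule.span ℂ b, φ (⟨_, σ.2⟩ - ⟨_, τ.2⟩ : E) = 0 := by
      intro φ hφ
      induction hφ using Submodule.span_induction with
      | mem φ hφ =>
        have h5 : φ = ev (x ⟨φ, hφ⟩) := (hx ⟨φ, hφ⟩).symm
        rw [h5]
        have h2 := congrFun h ⟨φ, hφ⟩
        simp only at h2
        simp only [ev, LinearMap.comp_apply, LinearMap.proj_apply, Submodule.subtype_apply,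
          Submodule.coe_sub, Pi.sub_apply, h2, sub_self]
      | zero => rfl
      | add φ ψ _ _ h2 h3 => rw [LinearMap.add_apply, h2, h3, add_zero]
      | smul c φ _ h2 => rw [LinearMap.smul_apply, h2, smul_zero]
    rw [hspan] at h1
    apply Subtype.ext
    funext y
    have h2 := h1 (ev y) (Submodule.subset_span ⟨y, rfl⟩)
    simp only [ev, LinearMap.comp_apply, LinearMap.proj_apply, Submodule.subtype_apply,
      Submodule.coe_sub, Pi.sub_apply, sub_eq_zero] at h2
    rcases zmod2 (σ.1 y) with h3 | h3 <;> rcases zmod2 (τ.1 y) with h4 | h4 <;>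
      rw [h3, h4] at h2 ⊢ <;> simp only [sg_zero, sg_one] at h2 <;> norm_num at h2
  have h2 := Nat.card_le_card_of_injective _ hinj
  refine h2.trans ?_
  rw [Nat.card_eq_fintype_card, Fintype.card_fun, ZMod.card]
  exact Nat.pow_le_pow_right (by norm_num) hcard

/-- **The counting bound.** -/
theorem count_bound {W : Type} [AddCommGroup W] [Module (ZMod 2) W] [Fintype W] [DecidableEq W]
    {n r : ℕ} (hn : Module.finrank (ZMod 2) W ≤ n)
    (h : ∀ σ : W → ZMod 2, ∃ g : Fin r → W → ℂ, (∀ i, Cls (g i)) ∧
      (fun x => sg (σ x)) = fun x => ∑ i, g i x) :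
    2 ^ Fintype.card W ≤ (Fintype.card (Data W n)) ^ r * 2 ^ r := by
  classical
  have : Module.Finite (ZMod 2) W := Module.Finite.of_finite
  let E : (Fin r → Data W n) → Submodule ℂ (W → ℂ) := fun δ =>
    Submodule.span ℂ (Set.range fun i => rec (δ i))
  have hE : ∀ δ, Module.finrank ℂ (E δ) ≤ r := by
    intro δ
    have := finrank_range_le_card (R := ℂ) (fun i => rec (δ i))
    rwa [Fintype.card_fin] at this
  have h1 : ∀ σ : W → ZMod 2, ∃ δ : Fin r → Data W n, (fun x => sg (σ x)) ∈ E δ := by
    intro σ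
    obtain ⟨g, hg, hs⟩ := h σ
    choose δ c hc using fun i => exists_match hn (hg i)
    refine ⟨δ, ?_⟩
    have e : (fun x => ∑ i, g i x) = ∑ i, c i • rec (δ i) := by
      funext x
      rw [Finset.sum_apply]
      apply Finset.sum_congr rfl
      intro i _
      rw [hc i]
      rfl
    rw [hs, e]
    apply Submodule.sum_mem
    intro i _
    exact Submodule.smul_mem _ _ (Submodule.subset_span ⟨i, rfl⟩)
  choose δ hδ using h1
  let Φ : (W → ZMod 2) → Σ δ : (Fin r → Data W n), {σ : W → ZMod 2 // (fun x => sg (σ x)) ∈ E δ} :=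
    fun σ => ⟨δ σ, σ, hδ σ⟩
  have hΦ : Function.Injective Φ := by
    intro σ τ h2
    have h3 := congrArg (fun p : (Σ δ : (Fin r → Data W n),
      {σ : W → ZMod 2 // (fun x => sg (σ x)) ∈ E δ}) => (p.2 : W → ZMod 2)) h2
    exact h3
  have h2 := Fintype.card_le_of_injective Φ hΦ
  rw [Fintype.card_fun, ZMod.card, Fintype.card_sigma] at h2
  refine h2.trans ?_
  calc ∑ δ : (Fin r → Data W n), Fintype.card {σ : W → ZMod 2 // (fun x => sg (σ x)) ∈ E δ}
      ≤ ∑ δ : (Fin r → Data W n), 2 ^ r := by
        apply Finset.sum_le_sum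
        intro δ _
        have := card_signs (E δ) r (hE δ)
        rwa [Nat.card_eq_fintype_card] at this
    _ = _ := by
        rw [Finset.sum_const, Finset.card_univ, Fintype.card_fun, Fintype.card_fin, smul_eq_mul]

lemma card_data (W : Type) [Fintype W] [DecidableEq W] (n : ℕ) (hW : Fintype.card W = 2 ^ n) :
    Fintype.card (Data W n) = 2 ^ (n + n * n + 2 * (n + 1) ^ 2) := by
  simp only [Data, Fintype.card_prod, Fintype.card_fun, Fintype.card_option, Fintype.card_fin, hW]
  rw [← pow_mul, ← pow_mul, show (4 : ℕ) = 2 ^ 2 by norm_num, ← pow_mul, ← pow_add, ← pow_add]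
  congr 1
  ring

end Pool.Agent.TH674.Stab
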