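import Mathlib

/-!
# Stabilizer states and the stabilizer rank

The space `(ℂ²)^{⊗ d}` is the space of the functions on `{0,1}^d` (coefficients in the standard basis
`e_x = e_{x_1} ⊗ ... ⊗ e_{x_d}`); the elements of `ZMod 2` are the indices `0, 1`.
-/

set_option autoImplicit false

namespace Pool.Agent.TH674.Stab

/-- the Pauli matrix `X` -/
def pX : Matrix (ZMod 2) (ZMod 2) ℂ := Matrix.of fun x y => if x = y then 0 else 1

/-- the Pauli matrix `Y` -/
def pY : Matrix (ZMod 2) (ZMod 2) ℂ :=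
  Matrix.of fun x y => if x = y then 0 else if x = 0 then -Complex.I else Complex.I

/-- the Pauli matrix `Z` -/
def pZ : Matrix (ZMod 2) (ZMod 2) ℂ :=
  Matrix.of fun x y => if x = y then (if x = 0 then 1 else -1) else 0

/-- `P_1`: the set of all products of the matrices `X`, `Y`, `Z`; this is the group generated by
them since their squares are `1` -/
def pauliOne : Submonoid (Matrix (ZMod 2) (ZMod 2) ℂ) := Submonoid.closure {pX, pY, pZ}

/-- the tensor product of `2 × 2` matrices, an operator on `(ℂ²)^{⊗ d}` -/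
def tens {d : ℕ} (M : Fin d → Matrix (ZMod 2) (ZMod 2) ℂ) :
    Matrix (Fin d → ZMod 2) (Fin d → ZMod 2) ℂ :=
  Matrix.of fun x y => ∏ j, M j (x j) (y j)

/-- the Pauli group `P_d` -/
def pauli (d : ℕ) : Set (Matrix (Fin d → ZMod 2) (Fin d → ZMod 2) ℂ) :=
  {P | ∃ M : Fin d → Matrix (ZMod 2) (ZMod 2) ℂ, (∀ j, M j ∈ pauliOne) ∧ P = tens M}

/-- the elements of the Clifford group: the unitary operators `U` which normalize `P_d` -/
def IsClifford {d : ℕ} (U : Matrix (Fin d → ZMod 2) (Fin d → ZMod 2) ℂ) : Prop :=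
  U ∈ Matrix.unitaryGroup (Fin d → ZMod 2) ℂ ∧ ∀ P, P ∈ pauli d ↔ U * P * U⁻¹ ∈ pauli d

/-- stabilizer states: the images of `e_0 ⊗ ... ⊗ e_0` under the Clifford group -/
def IsStab {d : ℕ} (s : (Fin d → ZMod 2) → ℂ) : Prop :=
  ∃ U, IsClifford U ∧ s = U.mulVec (Pi.single 0 1)

/-- the stabilizer rank of `T` -/
noncomputable def stabR {d : ℕ} (T : (Fin d → ZMod 2) → ℂ) : ℕ :=
  sInf {r : ℕ | ∃ (α : Fin r → ℂ) (S : Fin r → (Fin d → ZMod 2) → ℂ),
    (∀ i, IsStab (S i)) ∧ T = ∑ i, α i • S i}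

/-- the tensor power `v^{⊗ d}` of `v = v 0 e_0 + v 1 e_1` -/
def tpow (v : ZMod 2 → ℂ) (d : ℕ) : (Fin d → ZMod 2) → ℂ := fun x => ∏ j, v (x j)

end Pool.Agent.TH674.Stab
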