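import Pool.Agent.TH674.Stab.Sum

/-!
# All functions `(-1)^σ(x)` from tensor powers of one vector

A product of eleven values `v` of affine forms in `x, y, z`, summed over `z` with signs, is the
indicator of `x y = 0`. This gives the indicator of the standard basis vectors (one-hot vectors),
and two of these give all functions of the form `(-1)^σ(x)`.
-/

set_option autoImplicit false
set_option linter.unusedSectionVars false

namespace Pool.Agent.TH674.Stab

open Finset

/-- coefficients of `x` in the eleven forms -/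
def cx : Fin 11 → ZMod 2 := ![1, 0, 0, 1, 1, 0, 1, 0, 0, 0, 0]
/-- coefficients of `y` -/
def cy : Fin 11 → ZMod 2 := ![0, 1, 0, 1, 0, 1, 1, 0, 0, 0, 0]
/-- coefficients of `z` -/
def cz : Fin 11 → ZMod 2 := ![0, 0, 1, 0, 1, 1, 1, 1, 1, 1, 1]
/-- the constants -/
def cc : Fin 11 → ZMod 2 := ![0, 0, 0, 1, 1, 1, 0, 1, 1, 1, 1]

/-- the constant of the gadget -/
def kap (v : ZMod 2 → ℂ) : ℂ := v 0 ^ 4 * v 1 ^ 3 * (v 1 ^ 4 - v 0 ^ 4)

lemma kap_ne {v : ZMod 2 → ℂ} (h0 : v 0 ≠ 0) (h1 : v 1 ≠ 0) (h : v 0 ^ 4 ≠ v 1 ^ 4) :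
    kap v ≠ 0 :=
  mul_ne_zero (mul_ne_zero (pow_ne_zero _ h0) (pow_ne_zero _ h1)) (sub_ne_zero.2 h.symm)

lemma sum2 (g : ZMod 2 → ℂ) : ∑ c, g c = g 0 + g 1 := Fin.sum_univ_two g

lemma gadget (v : ZMod 2 → ℂ) (x y : ZMod 2) :
    ∑ z : ZMod 2, sg z * ∏ l, v (cx l * x + cy l * y + cz l * z + cc l) =
      if x * y = 0 then kap v else 0 := by
  have h : ∀ z : ZMod 2, ∏ l, v (cx l * x + cy l * y + cz l * z + cc l) =
      v x * v y * v z * v (1 + x + y) * v (1 + x + z) * v (1 + y + z) * v (x + y + z) *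
        v (1 + z) ^ 4 := by
    intro z
    simp only [Fin.prod_univ_succ, cx, cy, cz, cc, Matrix.cons_val_zero, Matrix.cons_val_succ,
      Finset.univ_eq_empty, Finset.prod_empty, one_mul, zero_mul, zero_add, add_zero, mul_one]
    have e1 : x + y + 1 = 1 + x + y := by ring
    have e2 : x + z + 1 = 1 + x + z := by ring
    have e3 : y + z + 1 = 1 + y + z := by ring
    have e4 : z + 1 = 1 + z := by ring
    rw [e1, e2, e3, e4]
    ring
  rw [sum2, h, h, sg_zero, sg_one]
  have e11 : (1 : ZMod 2) + 1 = 0 := rfl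
  unfold kap
  rcases zmod2 x with rfl | rfl <;> rcases zmod2 y with rfl | rfl
  · simp only [add_zero, zero_add, e11, mul_zero, if_true]
    ring
  · simp only [add_zero, zero_add, e11, zero_mul, if_true]
    ring
  · simp only [add_zero, zero_add, e11, mul_zero, if_true]
    ring
  · simp only [add_zero, zero_add, e11, mul_one]
    rw [if_neg (by decide)]
    ring

/-- one-hot vectors -/
lemma one_hot {A : ℕ} (u : Fin A → ZMod 2) (h1 : ∑ i, u i = 1)
    (h2 : ∀ i, u i * ∑ j ∈ univ.filter (· < i), u j = 0) : ∃ i, u = Pi.single i 1 := by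
  classical
  have hex : ∃ i, u i ≠ 0 := by
    by_contra hcon
    push Not at hcon
    rw [Finset.sum_eq_zero fun i _ => hcon i] at h1
    exact absurd h1 (by decide)
  -- a minimal one
  obtain ⟨i0, h3, h4⟩ : ∃ i, u i ≠ 0 ∧ ∀ j, j < i → u j = 0 := by
    obtain ⟨i, hi, hmin⟩ := Finset.exists_min_image (univ.filter fun i => u i ≠ 0) id (by
      obtain ⟨i, hi⟩ := hex
      exact ⟨i, by simp [hi]⟩)
    refine ⟨i, by simpa using hi, fun j hj => ?_⟩
    by_contra hcon
    have := hmin j (by simp [hcon])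
    exact absurd hj (not_lt.2 this)
  have h3' : u i0 = 1 := (zmod2 _).resolve_left h3
  refine ⟨i0, ?_⟩
  by_contra hne
  have hex2 : ∃ i, i ≠ i0 ∧ u i ≠ 0 := by
    by_contra hcon
    push Not at hcon
    apply hne
    funext j
    by_cases hj : j = i0
    · subst hj; simp [h3']
    · simp [hj, hcon j hj]
  obtain ⟨i1, h5, h6, h7⟩ : ∃ i, i ≠ i0 ∧ u i ≠ 0 ∧ ∀ j, j < i → j ≠ i0 → u j = 0 := by
    obtain ⟨i, hi, hmin⟩ := Finset.exists_min_image (univ.filter fun i => i ≠ i0 ∧ u i ≠ 0) id (by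
      obtain ⟨i, hi⟩ := hex2
      exact ⟨i, by simp [hi]⟩)
    have hi' : i ≠ i0 ∧ u i ≠ 0 := by simpa using hi
    refine ⟨i, hi'.1, hi'.2, fun j hj hj0 => ?_⟩
    by_contra hcon
    have := hmin j (by simp [hcon, hj0])
    exact absurd hj (not_lt.2 this)
  have h8 : i0 < i1 := by
    rcases lt_trichotomy i0 i1 with h | h | h
    · exact h
    · exact absurd h.symm h5
    · exact absurd (h4 i1 h) h6
  have h9 : ∑ j ∈ univ.filter (· < i1), u j = 1 := by
    rw [Finset.sum_eq_single i0]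
    · exact h3'
    · intro j hj hj0
      exact h7 j (by simpa using hj) hj0
    · intro hcon
      exact absurd (by simpa using h8) hcon
  have h10 := h2 i1
  rw [h9, mul_one] at h10
  exact h6 h10

/-- index set of the auxiliary bits -/
abbrev Aux (A : ℕ) : Type := (Fin 2 × Fin A) ⊕ (Fin 2 × Fin A)

/-- parity of the earlier bits -/
def pre {A : ℕ} (s : Fin 2 × Fin A → ZMod 2) (p : Fin 2 × Fin A) : ZMod 2 :=
  ∑ j ∈ univ.filter (· < p.2), s (p.1, j)

/-- the eleven forms of the pair `p` -/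
def fm {A : ℕ} (u z : Fin 2 × Fin A → ZMod 2) (p : Fin 2 × Fin A) (l : Fin 11) : ZMod 2 :=
  cx l * u p + cy l * pre u p + cz l * z p + cc l

section Main

variable {a : ℕ} {R : Type} [Fintype R] [DecidableEq R]

/-- the linear part of the forms -/
def linB (A : ℕ) (R W : Type) [AddCommGroup W] :
    W × (Aux A → ZMod 2) →+ (((Fin 2 × Fin A) × Fin 11) ⊕ R → ZMod 2) where
  toFun x := fun t => match t with
    | .inl (p, l) => cx l * x.2 (.inl p) + cy l * pre (fun q => x.2 (.inl q)) p + cz l * x.2 (.inr p)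
    | .inr _ => 0
  map_zero' := by
    funext t
    rcases t with ⟨p, l⟩ | t
    · simp [pre]
    · rfl
  map_add' x y := by
    funext t
    rcases t with ⟨p, l⟩ | t
    · simp only [pre, Prod.snd_add, Pi.add_apply, Finset.sum_add_distrib]
      ring
    · simp

/-- the constants -/
def conB (A : ℕ) (R : Type) : ((Fin 2 × Fin A) × Fin 11) ⊕ R → ZMod 2
  | .inl (_, l) => cc l
  | .inr _ => 0

/-- the value of the bit `k` -/
def co {A : ℕ} {W : Type} [AddCommGroup W] (k : Aux A) : W × (Aux A → ZMod 2) →+ ZMod 2 where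
  toFun x := x.2 k
  map_zero' := rfl
  map_add' _ _ := rfl

/-- the pair of words -/
def comb (β : Fin (2 ^ a) → Fin a → ZMod 2) (i j : Fin (2 ^ a)) : Fin 2 × Fin a → ZMod 2 :=
  fun p => if p.1 = 0 then β i p.2 else β j p.2

/-- the parity check: code word minus external bit -/
def chk (β : Fin (2 ^ a) → Fin a → ZMod 2) (q : Fin 2 × Fin a) :
    (Fin 2 × Fin a → ZMod 2) × (Aux (2 ^ a) → ZMod 2) →+ ZMod 2 where
  toFun x := ∑ i, β i q.2 * x.2 (.inl (q.1, i)) + x.1 q
  map_zero' := by simp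
  map_add' x y := by
    simp only [Prod.snd_add, Prod.fst_add, Pi.add_apply, mul_add, Finset.sum_add_distrib]
    ring

/-- the sum of the bits of a register -/
def tot {A : ℕ} {W : Type} [AddCommGroup W] (r : Fin 2) : W × (Aux A → ZMod 2) →+ ZMod 2 where
  toFun x := ∑ i, x.2 (.inl (r, i))
  map_zero' := by simp
  map_add' x y := by
    simp only [Prod.snd_add, Pi.add_apply, Finset.sum_add_distrib]

/-- the external factor -/
def extF (β : Fin (2 ^ a) → Fin a → ZMod 2) (σ : (Fin 2 × Fin a → ZMod 2) → ZMod 2)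
    (x : (Fin 2 × Fin a → ZMod 2) × (Aux (2 ^ a) → ZMod 2)) : ℂ :=
  ((∏ q : Fin 2 × Fin a, if chk β q x = 0 then (1 : ℂ) else 0) *
    (∏ r : Fin 2, if tot r x = 1 then (1 : ℂ) else 0)) *
  ((∏ ij : Fin (2 ^ a) × Fin (2 ^ a),
      sg (σ (comb β ij.1 ij.2) * x.2 (.inl (0, ij.1)) * x.2 (.inl (1, ij.2)))) *
    ∏ p : Fin 2 × Fin (2 ^ a), sg (x.2 (.inr p)))

lemma extF_cls (β : Fin (2 ^ a) → Fin a → ZMod 2) (σ : (Fin 2 × Fin a → ZMod 2) → ZMod 2) :
    Cls (extF β σ) := by
  unfold extF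
  refine Cls.mul (Cls.mul (Cls.prod _ fun q _ => Cls.ind _ _) (Cls.prod _ fun r _ => Cls.ind _ _))
    (Cls.mul (Cls.prod _ fun ij _ => ?_) (Cls.prod _ fun p _ => ?_))
  · exact Cls.sg_mul (V := (Fin 2 × Fin a → ZMod 2) × (Aux (2 ^ a) → ZMod 2))
      ((AddMonoidHom.mulLeft (σ (comb β ij.1 ij.2))).comp (co (.inl (0, ij.1))))
      (co (.inl (1, ij.2)))
  · exact Cls.sg_lin (V := (Fin 2 × Fin a → ZMod 2) × (Aux (2 ^ a) → ZMod 2)) (co (.inr p))

/-- the contraction -/
def contr (β : Fin (2 ^ a) → Fin a → ZMod 2) (σ : (Fin 2 × Fin a → ZMod 2) → ZMod 2)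
    (Ψ : (((Fin 2 × Fin (2 ^ a)) × Fin 11) ⊕ R → ZMod 2) → ℂ) (w : Fin 2 × Fin a → ZMod 2) : ℂ :=
  ∑ s : Aux (2 ^ a) → ZMod 2, extF β σ (w, s) *
    Ψ (linB (2 ^ a) R (Fin 2 × Fin a → ZMod 2) (w, s) + conB (2 ^ a) R)

lemma contr_cls (β : Fin (2 ^ a) → Fin a → ZMod 2) (σ : (Fin 2 × Fin a → ZMod 2) → ZMod 2)
    {Ψ : (((Fin 2 × Fin (2 ^ a)) × Fin 11) ⊕ R → ZMod 2) → ℂ} (hΨ : Cls Ψ) :
    Cls (contr β σ Ψ) := by
  unfold contr
  exact Cls.sum ((extF_cls β σ).mul (hΨ.comp (linB (2 ^ a) R (Fin 2 × Fin a → ZMod 2)) _))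

lemma prod_v (v : ZMod 2 → ℂ) (A : ℕ) (W : Type) [AddCommGroup W] (w : W)
    (s : Aux A → ZMod 2) :
    ∏ t, v ((linB A R W (w, s) + conB A R) t) =
      (∏ p : Fin 2 × Fin A, ∏ l, v (fm (fun q => s (.inl q)) (fun q => s (.inr q)) p l)) *
        v 0 ^ Fintype.card R := by
  rw [Fintype.prod_sum_type, Fintype.prod_prod_type]
  congr 1
  have h : ∀ t : R, v ((linB A R W (w, s) + conB A R) (.inr t)) = v 0 := by
    intro t
    have e : (linB A R W (w, s) + conB A R) (.inr t) = (0 : ZMod 2) + 0 := rfl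
    rw [e, add_zero]
  rw [Finset.prod_congr rfl (fun t _ => h t), Finset.prod_const, Finset.card_univ]

theorem contr_v (β : Fin (2 ^ a) ≃ (Fin a → ZMod 2)) (σ : (Fin 2 × Fin a → ZMod 2) → ZMod 2)
    (v : ZMod 2 → ℂ) (w : Fin 2 × Fin a → ZMod 2) :
    contr (R := R) (fun i => β i) σ (fun x => ∏ t, v (x t)) w =
      kap v ^ (2 * 2 ^ a) * v 0 ^ Fintype.card R * sg (σ w) := by
  classical
  unfold contr
  simp only [prod_v]
  -- separate the two kinds of bits
  rw [← Equiv.sum_comp (Equiv.sumArrowEquivProdArrow (Fin 2 × Fin (2 ^ a)) (Fin 2 × Fin (2 ^ a))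
    (ZMod 2)).symm, Fintype.sum_prod_type]
  have hs1 : ∀ (u z : Fin 2 × Fin (2 ^ a) → ZMod 2) (q : Fin 2 × Fin (2 ^ a)),
      (Equiv.sumArrowEquivProdArrow (Fin 2 × Fin (2 ^ a)) (Fin 2 × Fin (2 ^ a))
        (ZMod 2)).symm (u, z) (.inl q) = u q := fun _ _ _ => rfl
  have hs2 : ∀ (u z : Fin 2 × Fin (2 ^ a) → ZMod 2) (q : Fin 2 × Fin (2 ^ a)),
      (Equiv.sumArrowEquivProdArrow (Fin 2 × Fin (2 ^ a)) (Fin 2 × Fin (2 ^ a))
        (ZMod 2)).symm (u, z) (.inr q) = z q := fun _ _ _ => rfl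
  set C : (Fin 2 × Fin (2 ^ a) → ZMod 2) → ℂ := fun u =>
    ((∏ q : Fin 2 × Fin a, if ∑ i, β i q.2 * u (q.1, i) + w q = 0 then (1 : ℂ) else 0) *
    (∏ r : Fin 2, if ∑ i, u (r, i) = 1 then (1 : ℂ) else 0)) *
    (∏ ij : Fin (2 ^ a) × Fin (2 ^ a),
      sg (σ (comb (fun i => β i) ij.1 ij.2) * u (0, ij.1) * u (1, ij.2))) with hC
  have hterm : ∀ u : Fin 2 × Fin (2 ^ a) → ZMod 2,
      (∑ z : Fin 2 × Fin (2 ^ a) → ZMod 2,
        extF (fun i => β i) σ (w, (Equiv.sumArrowEquivProdArrow (Fin 2 × Fin (2 ^ a))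
          (Fin 2 × Fin (2 ^ a)) (ZMod 2)).symm (u, z)) *
        ((∏ p : Fin 2 × Fin (2 ^ a), ∏ l, v (fm (fun q => (Equiv.sumArrowEquivProdArrow
          (Fin 2 × Fin (2 ^ a)) (Fin 2 × Fin (2 ^ a)) (ZMod 2)).symm (u, z) (.inl q))
          (fun q => (Equiv.sumArrowEquivProdArrow
          (Fin 2 × Fin (2 ^ a)) (Fin 2 × Fin (2 ^ a)) (ZMod 2)).symm (u, z) (.inr q)) p l)) *
          v 0 ^ Fintype.card R)) =
      C u * v 0 ^ Fintype.card R *
        ∏ p : Fin 2 × Fin (2 ^ a), (if u p * pre u p = 0 then kap v else 0) := by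
    intro u
    have h1 : ∀ p : Fin 2 × Fin (2 ^ a), (if u p * pre u p = 0 then kap v else 0) =
        ∑ z : ZMod 2, sg z * ∏ l, v (cx l * u p + cy l * pre u p + cz l * z + cc l) :=
      fun p => (gadget v _ _).symm
    rw [Finset.prod_congr rfl (fun p _ => h1 p), Finset.prod_univ_sum, Finset.mul_sum,
      Fintype.piFinset_univ]
    apply Finset.sum_congr rfl
    intro z _
    rw [Finset.prod_mul_distrib]
    simp only [hs1, hs2]
    have h2 : extF (fun i => β i) σ (w, (Equiv.sumArrowEquivProdArrow (Fin 2 × Fin (2 ^ a))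
          (Fin 2 × Fin (2 ^ a)) (ZMod 2)).symm (u, z)) =
        C u * ∏ p : Fin 2 × Fin (2 ^ a), sg (z p) := by
      simp only [hC]
      unfold extF
      rw [← mul_assoc]
      rfl
    rw [h2]
    have h3 : ∀ p : Fin 2 × Fin (2 ^ a), ∏ l, v (fm u z p l) =
        ∏ l, v (cx l * u p + cy l * pre u p + cz l * z p + cc l) := fun p => rfl
    rw [Finset.prod_congr rfl (fun p _ => h3 p)]
    ring
  rw [Finset.sum_congr rfl (fun u _ => hterm u)]
  -- only one term is nonzero
  set i0 : Fin 2 → Fin (2 ^ a) := fun r => β.symm (fun k => w (r, k)) with hi0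
  set u0 : Fin 2 × Fin (2 ^ a) → ZMod 2 := fun p => if p.2 = i0 p.1 then 1 else 0 with hu0
  have hβ : ∀ r k, β (i0 r) k = w (r, k) := by
    intro r k
    simp only [hi0, Equiv.apply_symm_apply]
  rw [Finset.sum_eq_single u0]
  · have hpre : ∀ p, u0 p * pre u0 p = 0 := by
      intro p
      simp only [hu0]
      split_ifs with h
      · rw [one_mul]
        unfold pre
        apply Finset.sum_eq_zero
        intro j hj
        have hj' : j < p.2 := by simpa using hj
        simp only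
        rw [if_neg]
        rw [← h]
        exact ne_of_lt hj'
      · rw [zero_mul]
    have e1 : ∏ p : Fin 2 × Fin (2 ^ a), (if u0 p * pre u0 p = 0 then kap v else 0) =
        kap v ^ (2 * 2 ^ a) := by
      rw [Finset.prod_congr rfl (fun p _ => if_pos (hpre p)), Finset.prod_const, Finset.card_univ,
        Fintype.card_prod, Fintype.card_fin, Fintype.card_fin]
    have e2 : C u0 = sg (σ w) := by
      simp only [hC]
      have a1 : ∀ q : Fin 2 × Fin a, (if ∑ i, β i q.2 * u0 (q.1, i) + w q = 0 then (1 : ℂ) else 0) =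
          1 := by
        intro q
        rw [if_pos]
        simp only [hu0, mul_ite, mul_one, mul_zero, Finset.sum_ite_eq', Finset.mem_univ, if_true]
        rw [hβ]
        exact CharTwo.add_self_eq_zero _
      have a2 : ∀ r : Fin 2, (if ∑ i, u0 (r, i) = 1 then (1 : ℂ) else 0) = 1 := by
        intro r
        rw [if_pos]
        simp [hu0]
      rw [Finset.prod_congr rfl (fun q _ => a1 q), Finset.prod_congr rfl (fun r _ => a2 r),
        Finset.prod_const_one, Finset.prod_const_one, one_mul, one_mul, ← sg_sum]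
      congr 1
      rw [Finset.sum_eq_single (i0 0, i0 1)]
      · simp only [hu0, if_true, mul_one]
        congr 1
        funext p
        obtain ⟨r, k⟩ := p
        unfold comb
        simp only
        split_ifs with h
        · rw [h, hβ]
        · have h' : r = 1 := by
            revert h; revert r; decide
          rw [h', hβ]
      · rintro ⟨i, j⟩ _ hij
        simp only [hu0]
        by_cases h : i = i0 0
        · have h' : j ≠ i0 1 := by
            rintro rfl
            exact hij (by rw [h])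
          rw [if_neg h', mul_zero]
        · rw [if_neg h, mul_zero, zero_mul]
      · intro h
        exact absurd (Finset.mem_univ _) h
    rw [e1, e2]
    ring
  · intro u _ hu
    by_contra hcon
    apply hu
    have h1 : C u ≠ 0 := fun h => hcon (by rw [h, zero_mul, zero_mul])
    have h2 : ∏ p : Fin 2 × Fin (2 ^ a), (if u p * pre u p = 0 then kap v else 0) ≠ 0 :=
      fun h => hcon (by rw [h, mul_zero])
    simp only [hC] at h1
    have h3 := left_ne_zero_of_mul h1
    have h4 := left_ne_zero_of_mul h3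
    have h5 := right_ne_zero_of_mul h3
    rw [Finset.prod_ne_zero_iff] at h2 h4 h5
    have g2 : ∀ p, u p * pre u p = 0 := by
      intro p
      by_contra h
      exact h2 p (Finset.mem_univ _) (if_neg h)
    have g4 : ∀ q : Fin 2 × Fin a, ∑ i, β i q.2 * u (q.1, i) + w q = 0 := by
      intro q
      by_contra h
      exact h4 q (Finset.mem_univ _) (if_neg h)
    have g5 : ∀ r : Fin 2, ∑ i, u (r, i) = 1 := by
      intro r
      by_contra h
      exact h5 r (Finset.mem_univ _) (if_neg h)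
    funext p
    obtain ⟨r, j⟩ := p
    obtain ⟨i, hi⟩ := one_hot (fun i => u (r, i)) (g5 r) (fun i => g2 (r, i))
    have hi' : ∀ j, u (r, j) = if j = i then 1 else 0 := by
      intro j
      have := congrFun hi j
      simp only [Pi.single_apply] at this
      exact this
    have hii : i = i0 r := by
      rw [hi0]
      simp only
      rw [Equiv.eq_symm_apply]
      funext k
      have h6 := g4 (r, k)
      simp only [hi', mul_ite, mul_one, mul_zero, Finset.sum_ite_eq', Finset.mem_univ,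
        if_true] at h6
      generalize β i k = P at h6 ⊢
      generalize w (r, k) = Q at h6 ⊢
      revert P Q
      decide
    rw [hi' j, hu0, hii]
  · intro h
    exact absurd (Finset.mem_univ _) h

end Main

/-- **All sign functions.** -/
theorem realize {v : ZMod 2 → ℂ} (h0 : v 0 ≠ 0) (h1 : v 1 ≠ 0) (h : v 0 ^ 4 ≠ v 1 ^ 4)
    {a d : ℕ} (hd : 22 * 2 ^ a ≤ d) {r : ℕ} (S : Fin r → (Fin d → ZMod 2) → ℂ)
    (hS : ∀ i, Cls (S i)) (α : Fin r → ℂ)
    (hsum : (fun x : Fin d → ZMod 2 => ∏ j, v (x j)) = ∑ i, α i • S i)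
    (σ : (Fin 2 × Fin a → ZMod 2) → ZMod 2) :
    ∃ g : Fin r → (Fin 2 × Fin a → ZMod 2) → ℂ, (∀ i, Cls (g i)) ∧
      (fun x => sg (σ x)) = fun x => ∑ i, g i x := by
  classical
  let e : Fin d ≃ ((Fin 2 × Fin (2 ^ a)) × Fin 11) ⊕ Fin (d - 22 * 2 ^ a) :=
    Fintype.equivOfCardEq (by
      simp only [Fintype.card_fin, Fintype.card_sum, Fintype.card_prod]
      omega)
  let β : Fin (2 ^ a) ≃ (Fin a → ZMod 2) := Fintype.equivOfCardEq (by
    rw [Fintype.card_fin, Fintype.card_fun, ZMod.card, Fintype.card_fin])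
  let l : ((((Fin 2 × Fin (2 ^ a)) × Fin 11) ⊕ Fin (d - 22 * 2 ^ a)) → ZMod 2) →+
      (Fin d → ZMod 2) :=
    { toFun := fun x j => x (e j)
      map_zero' := rfl
      map_add' := fun _ _ => rfl }
  set c : ℂ := kap v ^ (2 * 2 ^ a) * v 0 ^ Fintype.card (Fin (d - 22 * 2 ^ a)) with hc
  have hc0 : c ≠ 0 := mul_ne_zero (pow_ne_zero _ (kap_ne h0 h1 h)) (pow_ne_zero _ h0)
  refine ⟨fun i w => (c⁻¹ * α i) * contr (fun i => β i) σ (fun x => S i (l x + 0)) w,
    fun i => ?_, ?_⟩
  · exact (contr_cls _ _ ((hS i).comp l 0)).const_mul _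
  · funext w
    have h2 := contr_v (R := Fin (d - 22 * 2 ^ a)) β σ v w
    rw [← hc] at h2
    have h3 : (fun x : (((Fin 2 × Fin (2 ^ a)) × Fin 11) ⊕ Fin (d - 22 * 2 ^ a)) → ZMod 2 =>
        ∏ t, v (x t)) = fun x => ∑ i, α i * S i (l x + 0) := by
      funext x
      have h4 := congrFun hsum (l x)
      simp only [Finset.sum_apply, Pi.smul_apply, smul_eq_mul] at h4
      rw [add_zero, ← h4]
      exact (Equiv.prod_comp e (fun t => v (x t))).symm
    rw [h3] at h2
    have h5 : contr (R := Fin (d - 22 * 2 ^ a)) (fun i => β i) σ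
        (fun x => ∑ i, α i * S i (l x + 0)) w =
        ∑ i, α i * contr (fun i => β i) σ (fun x => S i (l x + 0)) w := by
      unfold contr
      simp only [Finset.mul_sum]
      rw [Finset.sum_comm]
      apply Finset.sum_congr rfl
      intro i _
      apply Finset.sum_congr rfl
      intro s _
      ring
    rw [h5] at h2
    calc sg (σ w) = c⁻¹ * (c * sg (σ w)) := by field_simp
      _ = _ := by
        rw [← h2, Finset.mul_sum]
        apply Finset.sum_congr rfl
        intro i _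
        ring

end Pool.Agent.TH674.Stab
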