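import Pool.Agent.TH674.Stab.Cliff
import Pool.Agent.TH674.Stab.Count
import Pool.Agent.TH674.Stab.Gadget

/-!
# The lower bound for the stabilizer rank
-/

set_option autoImplicit false

namespace Pool.Agent.TH674.Stab

open Finset Filter

theorem lower_pow {v : ZMod 2 → ℂ} (h0 : v 0 ≠ 0) (h1 : v 1 ≠ 0) (h : v 0 ^ 4 ≠ v 1 ^ 4)
    {a d : ℕ} (hd : 22 * 2 ^ a ≤ d) :
    4 ^ a ≤ (12 * a ^ 2 + 10 * a + 3) * stabR (tpow v d) := by
  obtain ⟨α, S, hS, hsum⟩ := stabR_spec (tpow v d)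
  have h2 := fun σ => realize h0 h1 h hd S (fun i => (hS i).cls) α hsum σ
  have hfin : Module.finrank (ZMod 2) (Fin 2 × Fin a → ZMod 2) ≤ 2 * a := by
    rw [Module.finrank_fintype_fun_eq_card, Fintype.card_prod, Fintype.card_fin, Fintype.card_fin]
  have h3 := count_bound hfin h2
  have hW : Fintype.card (Fin 2 × Fin a → ZMod 2) = 2 ^ (2 * a) := by
    rw [Fintype.card_fun, ZMod.card, Fintype.card_prod, Fintype.card_fin, Fintype.card_fin]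
  rw [card_data _ _ hW, hW, ← pow_mul, ← pow_add] at h3
  have h4 := (Nat.pow_le_pow_iff_right (by norm_num : 1 < 2)).1 h3
  have h5 : (2 : ℕ) ^ (2 * a) = 4 ^ a := by rw [pow_mul]; norm_num
  rw [h5] at h4
  refine h4.trans (le_of_eq ?_)
  ring

lemma stabR_pos {v : ZMod 2 → ℂ} (h0 : v 0 ≠ 0) (d : ℕ) : 1 ≤ stabR (tpow v d) := by
  by_contra hcon
  have hz : stabR (tpow v d) = 0 := by omega
  obtain ⟨α, S, _, hsum⟩ := stabR_spec (tpow v d)
  have h1 := congrFun hsum 0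
  rw [Finset.sum_apply] at h1
  have h2 : ∑ i : Fin (stabR (tpow v d)), (α i • S i) 0 = 0 := by
    apply Finset.sum_eq_zero
    intro i _
    exact absurd i.2 (by omega)
  rw [h2] at h1
  unfold tpow at h1
  exact Finset.prod_ne_zero_iff.2 (fun j _ => h0) h1

theorem lower {v : ZMod 2 → ℂ} (h0 : v 0 ≠ 0) (h1 : v 1 ≠ 0) (h : v 0 ^ 4 ≠ v 1 ^ 4)
    {d : ℕ} (hd : 2 ≤ d) :
    (d : ℝ) ^ 2 / (200000 * Real.log d ^ 2) ≤ stabR (tpow v d) := by
  have hd' : (2 : ℝ) ≤ d := by exact_mod_cast hd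
  have hl2 : (0.69 : ℝ) ≤ Real.log 2 := by
    have := Real.log_two_gt_d9
    linarith
  have hlog : Real.log 2 ≤ Real.log d := Real.log_le_log (by norm_num) hd'
  have hlog0 : 0 < Real.log d := by linarith
  rw [div_le_iff₀ (by positivity)]
  have hr : (1 : ℝ) ≤ stabR (tpow v d) := by exact_mod_cast stabR_pos h0 d
  have hll : (0.47 : ℝ) ≤ Real.log d ^ 2 := by nlinarith
  by_cases hsmall : d < 44
  · have h2 : (d : ℝ) ≤ 44 := by exact_mod_cast hsmall.le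
    have h3 : (d : ℝ) ^ 2 ≤ 1936 := by nlinarith
    have h4 : (94000 : ℝ) ≤ 200000 * Real.log d ^ 2 := by linarith
    calc (d : ℝ) ^ 2 ≤ 1 * 94000 := by linarith
      _ ≤ stabR (tpow v d) * (200000 * Real.log d ^ 2) :=
        mul_le_mul hr h4 (by norm_num) (by linarith)
  push Not at hsmall
  set a := Nat.log 2 (d / 22) with ha
  have hq : d / 22 ≠ 0 := by omega
  have ha1 : 2 ^ a ≤ d / 22 := Nat.pow_log_le_self 2 hq
  have ha2 : d / 22 < 2 ^ (a + 1) := Nat.lt_pow_succ_log_self (by norm_num) _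
  have ha3 : 22 * 2 ^ a ≤ d := by omega
  have ha4 : d < 44 * 2 ^ a := by
    rw [pow_succ] at ha2
    omega
  have ha5 : 1 ≤ a := by
    rw [ha]
    exact Nat.log_pos (by norm_num) (by omega)
  have hmain := lower_pow h0 h1 h ha3
  set r := stabR (tpow v d) with hrr
  have e1 : 12 * a ^ 2 + 10 * a + 3 ≤ 25 * a ^ 2 := by nlinarith
  have e2 : 4 ^ a ≤ 25 * a ^ 2 * r := hmain.trans (Nat.mul_le_mul_right _ e1)
  have e3 : (4 : ℝ) ^ a ≤ 25 * a ^ 2 * r := by exact_mod_cast e2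
  have e4 : (d : ℝ) ≤ 44 * 2 ^ a := by exact_mod_cast ha4.le
  have e5 : (d : ℝ) ^ 2 ≤ 1936 * 4 ^ a := by
    calc (d : ℝ) ^ 2 ≤ (44 * 2 ^ a) ^ 2 := pow_le_pow_left₀ (by positivity) e4 2
      _ = 1936 * (2 ^ a) ^ 2 := by ring
      _ = 1936 * 4 ^ a := by
        rw [← pow_mul, mul_comm a 2, pow_mul]; norm_num
  have e6 : (a : ℝ) * Real.log 2 ≤ Real.log d := by
    rw [← Real.log_pow]
    apply Real.log_le_log (by positivity)
    have : 2 ^ a ≤ d := by omega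
    exact_mod_cast this
  have e7 : ((a : ℝ) * 0.69) ^ 2 ≤ Real.log d ^ 2 := by
    apply pow_le_pow_left₀ (by positivity)
    calc (a : ℝ) * 0.69 ≤ a * Real.log 2 := by gcongr
      _ ≤ _ := e6
  have e8 : (a : ℝ) ^ 2 * 48400 ≤ 200000 * Real.log d ^ 2 := by
    have : (a : ℝ) ^ 2 * 0.4761 ≤ Real.log d ^ 2 := by
      calc (a : ℝ) ^ 2 * 0.4761 = ((a : ℝ) * 0.69) ^ 2 := by ring
        _ ≤ _ := e7
    have h9 : (0 : ℝ) ≤ (a : ℝ) ^ 2 := sq_nonneg _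
    linarith
  calc (d : ℝ) ^ 2 ≤ 1936 * (25 * a ^ 2 * r) := e5.trans (by gcongr)
    _ = r * ((a : ℝ) ^ 2 * 48400) := by ring
    _ ≤ r * (200000 * Real.log d ^ 2) := by gcongr

theorem superlinear {v : ZMod 2 → ℂ} (h0 : v 0 ≠ 0) (h1 : v 1 ≠ 0) (h : v 0 ^ 4 ≠ v 1 ^ 4) :
    Tendsto (fun d : ℕ => (stabR (tpow v d) : ℝ) / d) atTop atTop := by
  have hs : Tendsto (fun d : ℕ => (d : ℝ) ^ (1 / 2 : ℝ) / 3200000) atTop atTop := by
    apply Tendsto.atTop_div_const (by norm_num)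
    exact (tendsto_rpow_atTop (by norm_num : (0 : ℝ) < 1 / 2)).comp tendsto_natCast_atTop_atTop
  refine tendsto_atTop_mono' atTop ?_ hs
  filter_upwards [eventually_ge_atTop 2] with d hd
  have hd' : (2 : ℝ) ≤ d := by exact_mod_cast hd
  have hd0 : (0 : ℝ) < d := by linarith
  have h2 := lower h0 h1 h hd
  have hlog0 : 0 < Real.log d := Real.log_pos (by linarith)
  have h3 : Real.log d ≤ (d : ℝ) ^ (1 / 4 : ℝ) / (1 / 4) :=
    Real.log_le_rpow_div hd0.le (by norm_num)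
  have h4 : Real.log d ^ 2 ≤ 16 * (d : ℝ) ^ (1 / 2 : ℝ) := by
    calc Real.log d ^ 2 ≤ ((d : ℝ) ^ (1 / 4 : ℝ) / (1 / 4)) ^ 2 :=
          pow_le_pow_left₀ hlog0.le h3 2
      _ = 16 * ((d : ℝ) ^ (1 / 4 : ℝ)) ^ 2 := by ring
      _ = 16 * (d : ℝ) ^ (1 / 2 : ℝ) := by
        rw [← Real.rpow_natCast, ← Real.rpow_mul hd0.le]
        norm_num
  have h5 : (0 : ℝ) < (d : ℝ) ^ (1 / 2 : ℝ) := Real.rpow_pos_of_pos hd0 _
  have h6 : (d : ℝ) ^ (1 / 2 : ℝ) * (d : ℝ) ^ (1 / 2 : ℝ) = d := by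
    rw [← Real.rpow_add hd0]
    norm_num
  rw [le_div_iff₀ hd0]
  refine le_trans ?_ h2
  rw [le_div_iff₀ (by positivity)]
  calc (d : ℝ) ^ (1 / 2 : ℝ) / 3200000 * d * (200000 * Real.log d ^ 2)
      ≤ (d : ℝ) ^ (1 / 2 : ℝ) / 3200000 * d * (200000 * (16 * (d : ℝ) ^ (1 / 2 : ℝ))) := by
        gcongr
    _ = d * ((d : ℝ) ^ (1 / 2 : ℝ) * (d : ℝ) ^ (1 / 2 : ℝ)) := by ring
    _ = (d : ℝ) ^ 2 := by rw [h6]; ring

end Pool.Agent.TH674.Stab
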